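import Pool.Agent.Helper38.SC.Example
import Pool.Agent.Helper80.SC.Quad
import Pool.Agent.Helper49.SC.Quad

/-! Block C1: the critical variety of the projection along the `z`-axis. -/

namespace Pool.Agent.Helper38.SC

open MvPowerSeries Pool.Agent.Helper38.EQ Pool.Agent.Helper38.GP
open Pool.Agent.Helper38.ED (LI LI_iff prime_of_notMem_sq Rad)

/-! ### Data -/

/-- `c_i` -/
private def C1_c : Fin 4 → ℚ := ![1 / 2, 1 / 4, 1, 1 / 3]

/-- `k_i` -/
private def C1_k : Fin 4 → ℚ := ![2, 4, 1, 3]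

/-- the constant terms of `p_i` -/
private def C1_α : Fin 4 → ℚ := ![0, 1 / 4, 1, 2 / 3]

/-- the coefficients of `t` in `p_i` -/
private def C1_β : Fin 4 → ℚ := ![0, 0, 0, 1 / 3]

/-- the index of `(p_i - p_j) / (c_i + c_j)` -/
private def C1_s : Fin 4 → Fin 4 → Fin 12 :=
  ![![0, 2, 4, 7], ![2, 0, 5, 9], ![4, 5, 0, 11], ![7, 9, 11, 0]]

/-- the index of `(p_i - p_j) / (c_i - c_j)` -/
private def C1_d : Fin 4 → Fin 4 → Fin 12 :=
  ![![0, 1, 3, 6], ![1, 0, 1, 8], ![3, 1, 0, 10], ![6, 8, 10, 0]]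

private theorem C1_ua0 : uα 0 = 0 := rfl
private theorem C1_ub0 : uβ 0 = 0 := rfl
private theorem C1_ua1 : uα 1 = 1 := rfl
private theorem C1_ub1 : uβ 1 = 0 := rfl
private theorem C1_ua2 : uα 2 = 1 / 3 := rfl
private theorem C1_ub2 : uβ 2 = 0 := rfl
private theorem C1_ua3 : uα 3 = 2 := rfl
private theorem C1_ub3 : uβ 3 = 0 := rfl
private theorem C1_ua4 : uα 4 = 2 / 3 := rfl
private theorem C1_ub4 : uβ 4 = 0 := rfl
private theorem C1_ua5 : uα 5 = 3 / 5 := rfl
private theorem C1_ub5 : uβ 5 = 0 := rfl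
private theorem C1_ua6 : uα 6 = 4 := rfl
private theorem C1_ub6 : uβ 6 = 2 := rfl
private theorem C1_ua7 : uα 7 = 4 / 5 := rfl
private theorem C1_ub7 : uβ 7 = 2 / 5 := rfl
private theorem C1_ua8 : uα 8 = 5 := rfl
private theorem C1_ub8 : uβ 8 = 4 := rfl
private theorem C1_ua9 : uα 9 = 5 / 7 := rfl
private theorem C1_ub9 : uβ 9 = 4 / 7 := rfl
private theorem C1_ua10 : uα 10 = 1 / 2 := rfl
private theorem C1_ub10 : uβ 10 = -1 / 2 := rfl
private theorem C1_ua11 : uα 11 = 1 / 4 := rfl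
private theorem C1_ub11 : uβ 11 = -1 / 4 := rfl

private theorem C1_kc (i : Fin 4) : C1_k i * C1_c i = 1 := by
  fin_cases i <;> norm_num [C1_k, C1_c]

private theorem C1_sum_ne (i j : Fin 4) : C1_c i + C1_c j ≠ 0 := by
  fin_cases i <;> fin_cases j <;> norm_num [C1_c]

private theorem C1_diff_ne (i j : Fin 4) (h : i ≠ j) : C1_c i - C1_c j ≠ 0 := by
  revert h
  fin_cases i <;> fin_cases j <;> norm_num [C1_c]

private theorem C1_sum_eq (i j : Fin 4) (h : i ≠ j) :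
    ((C1_c i + C1_c j) * uα (C1_s i j) = C1_α j - C1_α i ∧
      (C1_c i + C1_c j) * uβ (C1_s i j) = C1_β j - C1_β i) ∨
    ((C1_c i + C1_c j) * uα (C1_s i j) = -(C1_α j - C1_α i) ∧
      (C1_c i + C1_c j) * uβ (C1_s i j) = -(C1_β j - C1_β i)) := by
  revert h
  fin_cases i <;> fin_cases j <;> norm_num [C1_c, C1_α, C1_β, C1_s, C1_ua0, C1_ua1, C1_ua2, C1_ua3, C1_ua4, C1_ua5, C1_ua6, C1_ua7, C1_ua8, C1_ua9, C1_ua10,
    C1_ua11, C1_ub0, C1_ub1, C1_ub2, C1_ub3, C1_ub4, C1_ub5, C1_ub6, C1_ub7, C1_ub8, C1_ub9,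
    C1_ub10, C1_ub11]

private theorem C1_diff_eq (i j : Fin 4) (h : i ≠ j) :
    ((C1_c i - C1_c j) * uα (C1_d i j) = C1_α j - C1_α i ∧
      (C1_c i - C1_c j) * uβ (C1_d i j) = C1_β j - C1_β i) ∨
    ((C1_c i - C1_c j) * uα (C1_d i j) = -(C1_α j - C1_α i) ∧
      (C1_c i - C1_c j) * uβ (C1_d i j) = -(C1_β j - C1_β i)) := by
  revert h
  fin_cases i <;> fin_cases j <;> norm_num [C1_c, C1_α, C1_β, C1_d, C1_ua0, C1_ua1, C1_ua2, C1_ua3, C1_ua4, C1_ua5, C1_ua6, C1_ua7, C1_ua8, C1_ua9, C1_ua10,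
    C1_ua11, C1_ub0, C1_ub1, C1_ub2, C1_ub3, C1_ub4, C1_ub5, C1_ub6, C1_ub7, C1_ub8, C1_ub9,
    C1_ub10, C1_ub11]

section

variable {K : Type} [Field K]

/-- `p_i` -/
private noncomputable def C1_p (K : Type) [Field K] (i : Fin 4) : MvPowerSeries (Fin 3) K :=
  C ((C1_α i : ℚ) : K) + C ((C1_β i : ℚ) : K) * X 2

/-- `p_i x` -/
private noncomputable def C1_a (K : Type) [Field K] (i : Fin 4) : MvPowerSeries (Fin 3) K :=
  C1_p K i * X 0

/-- `c_i ^ 2 y` -/
private noncomputable def C1_b (K : Type) [Field K] (i : Fin 4) : MvPowerSeries (Fin 3) K :=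
  C ((C1_c i : ℚ) : K) ^ 2 * X 1

/-- the Weierstrass polynomial -/
private noncomputable def C1_W (K : Type) [Field K] : Polynomial (MvPowerSeries (Fin 3) K) :=
  ∏ i, ((Polynomial.X + Polynomial.C (C1_a K i)) ^ 2 - Polynomial.C (C1_b K i))

/-- the components of the critical variety -/
private noncomputable def C1_E (K : Type) [Field K] (k : Fin 12) : MvPowerSeries (Fin 3) K :=
  X 1 - exU K k ^ 2 * X 0 ^ 2

/-- the resultants of the factors -/
private noncomputable def C1_G (K : Type) [Field K] (i j : Fin 4) : MvPowerSeries (Fin 3) K :=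
  ((C1_a K j - C1_a K i) ^ 2 + C1_b K i - C1_b K j) ^ 2 - 4 * (C1_a K j - C1_a K i) ^ 2 * C1_b K i

private theorem C1_mem_X (j : Fin 3) :
    (X j : MvPowerSeries (Fin 3) K) ∈ IsLocalRing.maximalIdeal (MvPowerSeries (Fin 3) K) := by
  rw [mem_maximalIdeal_iff_constantCoeff, constantCoeff_X]

private theorem C1_a_mem (i : Fin 4) :
    C1_a K i ∈ IsLocalRing.maximalIdeal (MvPowerSeries (Fin 3) K) :=
  Ideal.mul_mem_left _ _ (C1_mem_X 0)

private theorem C1_b_mem (i : Fin 4) :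
    C1_b K i ∈ IsLocalRing.maximalIdeal (MvPowerSeries (Fin 3) K) :=
  Ideal.mul_mem_left _ _ (C1_mem_X 1)

private theorem C1_W_monic : (C1_W K).Monic :=
  Polynomial.monic_prod_of_monic _ _ fun _ _ => Pool.Agent.Helper80.SC.monic_quad _ _

private theorem C1_W_dist :
    (C1_W K).IsDistinguishedAt (IsLocalRing.maximalIdeal (MvPowerSeries (Fin 3) K)) := by
  have h1 : (C1_W K).map (Ideal.Quotient.mk (IsLocalRing.maximalIdeal (MvPowerSeries (Fin 3) K))) =
      Polynomial.X ^ 8 := by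
    unfold C1_W
    rw [Polynomial.map_prod]
    have h2 : ∀ i : Fin 4, Polynomial.map
        (Ideal.Quotient.mk (IsLocalRing.maximalIdeal (MvPowerSeries (Fin 3) K)))
        ((Polynomial.X + Polynomial.C (C1_a K i)) ^ 2 - Polynomial.C (C1_b K i)) =
        Polynomial.X ^ 2 := by
      intro i
      rw [Polynomial.map_sub, Polynomial.map_pow, Polynomial.map_add, Polynomial.map_X,
        Polynomial.map_C, Polynomial.map_C,
        Ideal.Quotient.eq_zero_iff_mem.2 (C1_a_mem i), Ideal.Quotient.eq_zero_iff_mem.2 (C1_b_mem i),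
        Polynomial.C_0, sub_zero, add_zero]
    simp only [h2]
    rw [Finset.prod_const, Finset.card_univ, Fintype.card_fin, ← pow_mul]
  have hdeg : (C1_W K).natDegree = 8 := by
    have h3 := C1_W_monic (K := K).natDegree_map
      (Ideal.Quotient.mk (IsLocalRing.maximalIdeal (MvPowerSeries (Fin 3) K)))
    rw [h1, Polynomial.natDegree_X_pow] at h3
    exact h3.symm
  refine ⟨⟨fun {n} hn => ?_⟩, C1_W_monic⟩
  rw [hdeg] at hn
  rw [← Ideal.Quotient.eq_zero_iff_mem, ← Polynomial.coeff_map, h1, Polynomial.coeff_X_pow,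
    if_neg hn.ne]

/-- the ideal of the image of `W` -/
private theorem C1_image :
    (Ideal.span {X 0, X 1} : Ideal (MvPowerSeries (Fin 3) K)) =
      (⟨finSuccEquiv K 3⟩ : Coord 3 K).image (exI K) := by
  have h0 : finSuccEquiv K 3 (X 0) = PowerSeries.X := finSuccEquiv_X_zero
  have h1 : finSuccEquiv K 3 (X 1) = PowerSeries.C (X 0) := finSuccEquiv_X_succ 0
  have h2 : finSuccEquiv K 3 (X 2) = PowerSeries.C (X 1) := finSuccEquiv_X_succ 1
  refine le_antisymm ?_ ?_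
  · rw [Ideal.span_le]
    rintro x (rfl | rfl)
    · change PowerSeries.C (X 0) ∈ Ideal.map (finSuccEquiv K 3) (exI K)
      rw [← h1]
      exact Ideal.mem_map_of_mem _ (Ideal.subset_span (by simp))
    · change PowerSeries.C (X 1) ∈ Ideal.map (finSuccEquiv K 3) (exI K)
      rw [← h2]
      exact Ideal.mem_map_of_mem _ (Ideal.subset_span (by simp))
  · intro x hx
    have hx' : PowerSeries.C x ∈ Ideal.map (finSuccEquiv K 3) (exI K) := hx
    have h3 : Ideal.map (finSuccEquiv K 3) (exI K) ≤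
        Ideal.comap (PowerSeries.constantCoeff (R := MvPowerSeries (Fin 3) K))
          (Ideal.span {X 0, X 1}) := by
      rw [Ideal.map_le_iff_le_comap]
      unfold exI
      rw [Ideal.span_le]
      rintro y (rfl | rfl | rfl)
      · change PowerSeries.constantCoeff (finSuccEquiv K 3 (X 0)) ∈
          (Ideal.span {X 0, X 1} : Ideal (MvPowerSeries (Fin 3) K))
        rw [h0, PowerSeries.constantCoeff_X]
        exact Ideal.zero_mem _
      · change PowerSeries.constantCoeff (finSuccEquiv K 3 (X 1)) ∈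
          (Ideal.span {X 0, X 1} : Ideal (MvPowerSeries (Fin 3) K))
        rw [h1, PowerSeries.constantCoeff_C]
        exact Ideal.subset_span (by simp)
      · change PowerSeries.constantCoeff (finSuccEquiv K 3 (X 2)) ∈
          (Ideal.span {X 0, X 1} : Ideal (MvPowerSeries (Fin 3) K))
        rw [h2, PowerSeries.constantCoeff_C]
        exact Ideal.subset_span (by simp)
    have h4 := h3 hx'
    rw [Ideal.mem_comap, PowerSeries.constantCoeff_C] at h4
    exact h4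

private theorem C1_U_zero : exU K 0 = 0 := by
  unfold exU
  have h1 : uα 0 = 0 := rfl
  have h2 : uβ 0 = 0 := rfl
  rw [h1, h2, Rat.cast_zero, map_zero, zero_mul, add_zero]

private theorem C1_G_eq [CharZero K] (i j : Fin 4) : C1_G K i j =
    ((C (((C1_α j - C1_α i : ℚ)) : K) + C (((C1_β j - C1_β i : ℚ)) : K) * X 2) ^ 2 * X 0 ^ 2 -
      C (((C1_c i + C1_c j : ℚ)) : K) ^ 2 * X 1) *
    ((C (((C1_α j - C1_α i : ℚ)) : K) + C (((C1_β j - C1_β i : ℚ)) : K) * X 2) ^ 2 * X 0 ^ 2 -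
      C (((C1_c i - C1_c j : ℚ)) : K) ^ 2 * X 1) := by
  unfold C1_G C1_a C1_b C1_p
  rw [Rat.cast_sub, Rat.cast_sub, Rat.cast_sub, Rat.cast_add, map_sub, map_sub, map_sub, map_add]
  ring

end

variable {K : Type} [Field K] [CharZero K]

private theorem C1_form {s a b : ℚ} (hs : s ≠ 0) {k : Fin 12}
    (h : (s * uα k = a ∧ s * uβ k = b) ∨ (s * uα k = -a ∧ s * uβ k = -b)) :
    Associated ((C ((a : ℚ) : K) + C ((b : ℚ) : K) * X 2) ^ 2 * X 0 ^ 2 -
      C ((s : ℚ) : K) ^ 2 * X 1 : MvPowerSeries (Fin 3) K) (C1_E K k) := by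
  have hu : IsUnit (-C ((s : ℚ) : K) ^ 2 : MvPowerSeries (Fin 3) K) := by
    refine (IsUnit.pow 2 ?_).neg
    rw [MvPowerSeries.isUnit_iff_constantCoeff, constantCoeff_C, isUnit_iff_ne_zero]
    exact Rat.cast_ne_zero.2 hs
  have h1 : (C ((a : ℚ) : K) + C ((b : ℚ) : K) * X 2 : MvPowerSeries (Fin 3) K) ^ 2 =
      C ((s : ℚ) : K) ^ 2 * exU K k ^ 2 := by
    have h2 : (C (((s * uα k : ℚ)) : K) + C (((s * uβ k : ℚ)) : K) * X 2 :
        MvPowerSeries (Fin 3) K) = C ((s : ℚ) : K) * exU K k := by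
      unfold exU
      rw [Rat.cast_mul, Rat.cast_mul, map_mul, map_mul]
      ring
    rw [← mul_pow, ← h2]
    rcases h with ⟨h3, h4⟩ | ⟨h3, h4⟩
    · rw [h3, h4]
    · rw [h3, h4, Rat.cast_neg, Rat.cast_neg, map_neg, map_neg]
      ring
  rw [h1]
  have h3 : (C ((s : ℚ) : K) ^ 2 * exU K k ^ 2 * X 0 ^ 2 - C ((s : ℚ) : K) ^ 2 * X 1 :
      MvPowerSeries (Fin 3) K) = (-C ((s : ℚ) : K) ^ 2) * C1_E K k := by
    unfold C1_E
    ring
  rw [h3]
  exact associated_unit_mul_left _ _ hu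

private theorem C1_G_assoc (i j : Fin 4) (h : i ≠ j) :
    Associated (C1_G K i j) (C1_E K (C1_s i j) * C1_E K (C1_d i j)) := by
  rw [C1_G_eq]
  exact (C1_form (C1_sum_ne i j) (C1_sum_eq i j h)).mul_mul
    (C1_form (C1_diff_ne i j h) (C1_diff_eq i j h))

private theorem C1_b_assoc (i : Fin 4) : Associated (C1_b K i) (C1_E K 0) := by
  have hu : IsUnit (C ((C1_c i : ℚ) : K) ^ 2 : MvPowerSeries (Fin 3) K) := by
    refine IsUnit.pow 2 ?_
    rw [MvPowerSeries.isUnit_iff_constantCoeff, constantCoeff_C, isUnit_iff_ne_zero]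
    refine Rat.cast_ne_zero.2 fun h => ?_
    have := C1_kc i
    rw [h, mul_zero] at this
    exact zero_ne_one this
  unfold C1_b C1_E
  rw [C1_U_zero]
  have h1 : (X 1 - 0 ^ 2 * X 0 ^ 2 : MvPowerSeries (Fin 3) K) = X 1 := by ring
  rw [h1]
  exact associated_unit_mul_left _ _ hu

omit [CharZero K] in
private theorem C1_E_prime (k : Fin 12) : Prime (C1_E K k) := by
  have h := Pool.Agent.Helper49.SC.qXY_smooth (Pool.Agent.Helper49.SC.li_XY (K := K))
    (fun k => exU K k ^ 2) k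
  exact prime_of_notMem_sq h.1 h.2

private theorem C1_inj (k l : Fin 12) (h : k ≠ l) : uα k ^ 2 ≠ uα l ^ 2 := by
  intro h1
  apply h
  revert h1
  fin_cases k <;> fin_cases l <;> norm_num [uα]

private theorem C1_isUnit (k l : Fin 12) (h : k ≠ l) : IsUnit (exU K k ^ 2 - exU K l ^ 2) := by
  rw [MvPowerSeries.isUnit_iff_constantCoeff, isUnit_iff_ne_zero]
  have h1 : ∀ k, constantCoeff (exU K k) = ((uα k : ℚ) : K) := fun k => by
    unfold exU
    rw [map_add, map_mul, constantCoeff_X, constantCoeff_C, constantCoeff_C, mul_zero, add_zero]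
  rw [map_sub, map_pow, map_pow, h1, h1, sub_ne_zero]
  intro h2
  exact C1_inj k l h (by exact_mod_cast h2)

private theorem C1_E_not_dvd (k l : Fin 12) (h : k ≠ l) : ¬ C1_E K k ∣ C1_E K l := by
  intro h1
  have h2 : C1_E K k ∣ (exU K k ^ 2 - exU K l ^ 2) * X 0 ^ 2 := by
    have h3 := dvd_sub h1 (dvd_refl (C1_E K k))
    have h4 : C1_E K l - C1_E K k = (exU K k ^ 2 - exU K l ^ 2) * X 0 ^ 2 := by
      unfold C1_E
      ring
    rwa [h4] at h3
  have h5 : C1_E K k ∣ X 0 := (C1_E_prime k).dvd_of_dvd_pow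
    (h2.trans (associated_unit_mul_left _ _ (C1_isUnit k l h)).dvd)
  exact (Pool.Agent.Helper49.SC.qXY_LI (Pool.Agent.Helper49.SC.li_XY (K := K))
    (fun k => exU K k ^ 2) k).not_dvd h5

private theorem C1_D_rad : Rad (exD K) :=
  Rad.prod (C1_E K) C1_E_prime C1_E_not_dvd

/-- the discriminant, up to a unit -/
private noncomputable def C1_disc (K : Type) [Field K] : MvPowerSeries (Fin 3) K :=
  (∏ i, C1_b K i) * ∏ i, ∏ j ∈ Finset.univ.filter (fun j => j ≠ i), C1_G K i j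

private theorem C1_discr : Associated (C1_W K).discr (C1_disc K) := by
  have h1 := Pool.Agent.Helper80.SC.discr_quad (by norm_num : 0 < 4) (C1_a K) (C1_b K)
  refine h1.trans ?_
  rw [mul_assoc]
  refine associated_unit_mul_left _ _ ?_
  rw [MvPowerSeries.isUnit_iff_constantCoeff, map_pow, map_ofNat]
  exact (isUnit_iff_ne_zero.2 (by norm_num)).pow 4

omit [CharZero K] in
private theorem C1_E_dvd (k : Fin 12) : C1_E K k ∣ exD K :=
  Finset.dvd_prod_of_mem (C1_E K) (Finset.mem_univ k)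

private theorem C1_disc_dvd : ∃ N, C1_disc K ∣ exD K ^ N := by
  have h1 : (∏ i, C1_b K i) ∣ exD K ^ 4 := by
    have h2 : (∏ i : Fin 4, C1_b K i) ∣ ∏ _i : Fin 4, exD K :=
      Finset.prod_dvd_prod_of_dvd _ _ fun i _ => (C1_b_assoc i).dvd.trans (C1_E_dvd _)
    rwa [Finset.prod_const, Finset.card_univ, Fintype.card_fin] at h2
  have h3 : ∀ i : Fin 4, (∏ j ∈ Finset.univ.filter (fun j => j ≠ i), C1_G K i j) ∣
      (exD K ^ 2) ^ 3 := fun i => by
    have h4 : (∏ j ∈ Finset.univ.filter (fun j => j ≠ i), C1_G K i j) ∣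
        ∏ _j ∈ Finset.univ.filter (fun j => j ≠ i), exD K ^ 2 :=
      Finset.prod_dvd_prod_of_dvd _ _ fun j hj =>
        (C1_G_assoc i j (Finset.mem_filter.1 hj).2.symm).dvd.trans (by
          rw [pow_two]
          exact mul_dvd_mul (C1_E_dvd _) (C1_E_dvd _))
    rw [Finset.prod_const] at h4
    have h5 : (Finset.univ.filter (fun j : Fin 4 => j ≠ i)).card = 3 := by
      fin_cases i <;> rfl
    rwa [h5] at h4
  have h6 : (∏ i, ∏ j ∈ Finset.univ.filter (fun j => j ≠ i), C1_G K i j) ∣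
      ((exD K ^ 2) ^ 3) ^ 4 := by
    have h7 : (∏ i, ∏ j ∈ Finset.univ.filter (fun j => j ≠ i), C1_G K i j) ∣
        ∏ _i : Fin 4, (exD K ^ 2) ^ 3 := Finset.prod_dvd_prod_of_dvd _ _ fun i _ => h3 i
    rwa [Finset.prod_const, Finset.card_univ, Fintype.card_fin] at h7
  refine ⟨4 + 2 * 3 * 4, ?_⟩
  rw [pow_add, pow_mul, pow_mul]
  exact mul_dvd_mul h1 h6

private theorem C1_D_dvd : ∃ N, exD K ∣ C1_disc K ^ N := by
  have h1 : ∀ i, C1_b K i ∣ C1_disc K := fun i =>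
    (Finset.dvd_prod_of_mem _ (Finset.mem_univ i)).trans (dvd_mul_right _ _)
  have h2 : ∀ i j, i ≠ j → C1_G K i j ∣ C1_disc K := fun i j hij => by
    refine Dvd.dvd.trans ?_ (dvd_mul_left _ _)
    refine Dvd.dvd.trans ?_ (Finset.dvd_prod_of_mem
      (fun i => ∏ j ∈ Finset.univ.filter (fun j => j ≠ i), C1_G K i j)
      (Finset.mem_univ i))
    exact Finset.dvd_prod_of_mem (fun j => C1_G K i j)
      (Finset.mem_filter.2 ⟨Finset.mem_univ j, hij.symm⟩)
  have h3 : C1_E K 0 ∣ C1_disc K := (C1_b_assoc 0).symm.dvd.trans (h1 0)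
  have h4 : ∀ i j, i ≠ j → C1_E K (C1_s i j) ∣ C1_disc K := fun i j hij =>
    (dvd_mul_right _ _).trans ((C1_G_assoc i j hij).symm.dvd.trans (h2 i j hij))
  have h4' : ∀ i j, i ≠ j → C1_E K (C1_d i j) ∣ C1_disc K := fun i j hij =>
    (dvd_mul_left _ _).trans ((C1_G_assoc i j hij).symm.dvd.trans (h2 i j hij))
  have h5 : ∀ k : Fin 12, C1_E K k ∣ C1_disc K := by
    intro k
    fin_cases k
    · exact h3
    · exact h4' 0 1 (by decide)
    · exact h4 0 1 (by decide)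
    · exact h4' 0 2 (by decide)
    · exact h4 0 2 (by decide)
    · exact h4 1 2 (by decide)
    · exact h4' 0 3 (by decide)
    · exact h4 0 3 (by decide)
    · exact h4' 1 3 (by decide)
    · exact h4 1 3 (by decide)
    · exact h4' 2 3 (by decide)
    · exact h4 2 3 (by decide)
  refine ⟨12, ?_⟩
  have h6 : (∏ k, C1_E K k) ∣ ∏ _k : Fin 12, C1_disc K :=
    Finset.prod_dvd_prod_of_dvd _ _ fun k _ => h5 k
  rwa [Finset.prod_const, Finset.card_univ, Fintype.card_fin] at h6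

private theorem C1_red : Ideal.span {exD K} = (Ideal.span {(C1_W K).discr}).radical := by
  have h1 : Ideal.span {(C1_W K).discr} = Ideal.span {C1_disc K} :=
    Ideal.span_singleton_eq_span_singleton.2 C1_discr
  rw [h1]
  exact Rad.span_eq C1_D_rad C1_D_dvd C1_disc_dvd

/-- `p_i`, in four variables -/
private noncomputable def C1_q (K : Type) [Field K] (i : Fin 4) : MvPowerSeries (Fin 4) K :=
  C ((C1_α i : ℚ) : K) + C ((C1_β i : ℚ) : K) * X 3

private theorem C1_L_eq (i : Fin 4) :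
    exL K i = C ((C1_k i : ℚ) : K) * (X 0 + C1_q K i * X 1) := by
  have h1 : C ((C1_k i : ℚ) : K) * (X 0 + C1_q K i * X 1) =
      C ((C1_k i : ℚ) : K) * X 0 + (C (((C1_k i * C1_α i : ℚ)) : K) +
        C (((C1_k i * C1_β i : ℚ)) : K) * X 3) * X 1 := by
    unfold C1_q
    rw [Rat.cast_mul, Rat.cast_mul, map_mul, map_mul]
    ring
  rw [h1]
  fin_cases i
  · change 2 * X 0 = C (((2 : ℚ)) : K) * X 0 + (C (((2 * 0 : ℚ)) : K) +
        C (((2 * 0 : ℚ)) : K) * X 3) * X 1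
    rw [mul_zero, Rat.cast_zero, Rat.cast_ofNat, map_zero, map_ofNat]
    ring
  · change 4 * X 0 + X 1 = C (((4 : ℚ)) : K) * X 0 + (C (((4 * (1 / 4) : ℚ)) : K) +
        C (((4 * 0 : ℚ)) : K) * X 3) * X 1
    rw [mul_zero, (by norm_num : (4 * (1 / 4) : ℚ) = 1), Rat.cast_zero, Rat.cast_one,
      Rat.cast_ofNat, map_zero, map_one, map_ofNat]
    ring
  · change X 0 + X 1 = C (((1 : ℚ)) : K) * X 0 + (C (((1 * 1 : ℚ)) : K) +
        C (((1 * 0 : ℚ)) : K) * X 3) * X 1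
    rw [mul_zero, mul_one, Rat.cast_zero, Rat.cast_one, map_zero, map_one]
    ring
  · change 3 * X 0 + (2 + X 3) * X 1 = C (((3 : ℚ)) : K) * X 0 + (C (((3 * (2 / 3) : ℚ)) : K) +
        C (((3 * (1 / 3) : ℚ)) : K) * X 3) * X 1
    rw [(by norm_num : (3 * (2 / 3) : ℚ) = 2), (by norm_num : (3 * (1 / 3) : ℚ) = 1),
      Rat.cast_one, Rat.cast_ofNat, Rat.cast_ofNat, map_one, map_ofNat, map_ofNat]
    ring

private theorem C1_fac (i : Fin 4) : X 2 - exL K i ^ 2 =
    ((X 0 + C1_q K i * X 1) ^ 2 - C ((C1_c i : ℚ) : K) ^ 2 * X 2) *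
      (-C ((C1_k i : ℚ) : K) ^ 2) := by
  rw [C1_L_eq]
  have h1 : (C ((C1_k i : ℚ) : K) * C ((C1_c i : ℚ) : K) : MvPowerSeries (Fin 4) K) = 1 := by
    rw [← map_mul, ← Rat.cast_mul, C1_kc, Rat.cast_one, map_one]
  have h2 : (X 2 : MvPowerSeries (Fin 4) K) =
      (C ((C1_k i : ℚ) : K) * C ((C1_c i : ℚ) : K)) ^ 2 * X 2 := by
    rw [h1, one_pow, one_mul]
  calc _ = (C ((C1_k i : ℚ) : K) * C ((C1_c i : ℚ) : K)) ^ 2 * X 2 -
      (C ((C1_k i : ℚ) : K) * (X 0 + C1_q K i * X 1)) ^ 2 := by rw [← h2]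
    _ = _ := by ring

omit [CharZero K] in
private theorem C1_sigma (i : Fin 4) :
    finSuccEquiv K 3 ((X 0 + C1_q K i * X 1) ^ 2 - C ((C1_c i : ℚ) : K) ^ 2 * X 2) =
      (((Polynomial.X + Polynomial.C (C1_a K i)) ^ 2 - Polynomial.C (C1_b K i) :
        Polynomial (MvPowerSeries (Fin 3) K)) : PowerSeries (MvPowerSeries (Fin 3) K)) := by
  have h0 : finSuccEquiv K 3 (X 0) = PowerSeries.X := finSuccEquiv_X_zero
  have h1 : finSuccEquiv K 3 (X 1) = PowerSeries.C (X 0) := finSuccEquiv_X_succ 0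
  have h2 : finSuccEquiv K 3 (X 2) = PowerSeries.C (X 1) := finSuccEquiv_X_succ 1
  have h3 : finSuccEquiv K 3 (X 3) = PowerSeries.C (X 2) := finSuccEquiv_X_succ 2
  have hC : ∀ a : K, finSuccEquiv K 3 (C a) = PowerSeries.C (C a) := fun a => finSuccEquiv_C a
  unfold C1_q C1_a C1_b C1_p
  simp only [map_sub, map_add, map_mul, map_pow, h0, h1, h2, h3, hC, Polynomial.coe_sub,
    Polynomial.coe_mul, Polynomial.coe_pow, Polynomial.coe_add, Polynomial.coe_X,
    Polynomial.coe_C]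

/-- (C1) The critical variety of the projection along the `z`-axis. The Weierstrass polynomial is
`∏ P_i`, `P_i = (z + p_i x) ^ 2 - c_i ^ 2 y`, `l_i = k_i (z + p_i x)`, `c_i = 1 / k_i`,
`k = 2, 4, 1, 3`, `k p = 0, 1, 1, 2 + t`; the discriminant of `P_i` is `4 c_i ^ 2 y`, and the
resultant of `P_i` and `P_j` is
`((p_i - p_j) ^ 2 x ^ 2 - (c_i + c_j) ^ 2 y) ((p_i - p_j) ^ 2 x ^ 2 - (c_i - c_j) ^ 2 y)`. -/
theorem isCrit_ex {K : Type} [Field K] [IsAlgClosed K] [CharZero K] :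
    IsCrit (exF K) (exI K) (exZ K) (exD K) (Ideal.span {X 0, X 1}) := by
  have hu : IsUnit (∏ i : Fin 4, (-C ((C1_k i : ℚ) : K) ^ 2 : MvPowerSeries (Fin 4) K)) := by
    refine IsUnit.prod_univ_iff.2 fun i => (IsUnit.pow 2 ?_).neg
    rw [MvPowerSeries.isUnit_iff_constantCoeff, constantCoeff_C, isUnit_iff_ne_zero]
    refine Rat.cast_ne_zero.2 fun h => ?_
    have := C1_kc i
    rw [h, zero_mul] at this
    exact zero_ne_one this
  refine ⟨⟨finSuccEquiv K 3⟩, C1_W K, fun i => ?_,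
    ⟨finSuccEquiv K 3 (∏ i : Fin 4, (-C ((C1_k i : ℚ) : K) ^ 2)), C1_W_dist,
      hu.map (finSuccEquiv K 3), ?_⟩, C1_red, C1_image⟩
  · fin_cases i
    · exact finSuccEquiv_X_succ 0
    · exact finSuccEquiv_X_succ 1
    · exact finSuccEquiv_X_succ 2
  · change finSuccEquiv K 3 (exF K) = _
    unfold exF C1_W
    rw [Finset.prod_congr rfl fun i _ => C1_fac i, Finset.prod_mul_distrib, map_mul]
    congr 1
    rw [map_prod, ← Polynomial.coeToPowerSeries.ringHom_apply, map_prod]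
    exact Finset.prod_congr rfl fun i _ => C1_sigma (K := K) i

end Pool.Agent.Helper38.SC
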