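import Pool.Agent.Helper38.SC.Example
import Pool.Agent.Helper38.GP.Final
import Pool.Agent.Helper49.SC.Quad

/-! Block C2: the critical variety is equisingular; simple properties of the example. -/

namespace Pool.Agent.Helper38.SC

open MvPowerSeries Pool.Agent.Helper38.EQ Pool.Agent.Helper38.GP

section

variable {K : Type} [Field K] [CharZero K]

private theorem C2_inj (k l : Fin 12) (h : k ≠ l) : uα k ^ 2 ≠ uα l ^ 2 := by
  intro h1
  apply h
  revert h1
  fin_cases k <;> fin_cases l <;> norm_num [uα]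

private theorem C2_isUnit (k l : Fin 12) (h : k ≠ l) : IsUnit (exU K k ^ 2 - exU K l ^ 2) := by
  rw [MvPowerSeries.isUnit_iff_constantCoeff, isUnit_iff_ne_zero]
  have h1 : ∀ k, constantCoeff (exU K k) = ((uα k : ℚ) : K) := fun k => by
    unfold exU
    rw [map_add, map_mul, constantCoeff_X, constantCoeff_C, constantCoeff_C, mul_zero, add_zero]
  rw [map_sub, map_pow, map_pow, h1, h1, sub_ne_zero]
  intro h2
  exact C2_inj k l h (by exact_mod_cast h2)

end

variable {K : Type} [Field K] [IsAlgClosed K] [CharZero K]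

omit [IsAlgClosed K] in
/-- (C2) `∏ (y - u_k ^ 2 x ^ 2) = 0` is equisingular along `x = y = 0`. -/
theorem equi_exD {𝒞 : ProjClass K} (h𝒞 : HasLin 𝒞) :
    Equi 𝒞 1 3 (exD K) (Ideal.span {X 0, X 1}) :=
  Pool.Agent.Helper49.SC.equi_Q h𝒞 (m := 10) Pool.Agent.Helper49.SC.li_XY
    (fun k => exU K k ^ 2) C2_isUnit (Associated.refl _) Pool.Agent.Helper49.SC.curveIdeal_XY
    (Ideal.subset_span (by simp)) (Ideal.subset_span (by simp))

/-! ### The linear parts -/

section

variable {K : Type} [Field K]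

/-- The coefficients of `z` in `l_i`. -/
private def C2_k : Fin 4 → ℕ := ![2, 4, 1, 3]

private theorem C2_k_inj : Function.Injective C2_k := by decide

private theorem C2_k_ne : ∀ i, C2_k i ≠ 0 := by decide

private theorem C2_single {n : ℕ} (k l : Fin n) :
    coeff (Finsupp.single k 1) (X l : MvPowerSeries (Fin n) K) = if k = l then 1 else 0 := by
  rw [coeff_X]
  by_cases h : k = l
  · rw [if_pos h, if_pos (by rw [h])]
  · rw [if_neg h, if_neg]
    intro h2
    exact h (Finsupp.single_left_injective one_ne_zero h2)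

private theorem C2_eq (i : Fin 4) : ∃ m : MvPowerSeries (Fin 4) K,
    exL K i = C ((C2_k i : ℕ) : K) * X 0 + m * X 1 := by
  fin_cases i
  · refine ⟨0, ?_⟩
    change 2 * X 0 = C ((2 : ℕ) : K) * X 0 + 0 * X 1
    rw [map_natCast, zero_mul, add_zero]
    rfl
  · refine ⟨1, ?_⟩
    change 4 * X 0 + X 1 = C ((4 : ℕ) : K) * X 0 + 1 * X 1
    rw [map_natCast, one_mul]
    rfl
  · refine ⟨1, ?_⟩
    change X 0 + X 1 = C ((1 : ℕ) : K) * X 0 + 1 * X 1
    rw [map_natCast, Nat.cast_one, one_mul, one_mul]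
  · refine ⟨2 + X 3, ?_⟩
    change 3 * X 0 + (2 + X 3) * X 1 = C ((3 : ℕ) : K) * X 0 + (2 + X 3) * X 1
    rw [map_natCast]
    rfl

private theorem C2_const (i : Fin 4) : constantCoeff (exL K i) = 0 := by
  obtain ⟨m, hm⟩ := C2_eq (K := K) i
  rw [hm, map_add, map_mul, map_mul, constantCoeff_X, constantCoeff_X, mul_zero, mul_zero,
    add_zero]

private theorem C2_coeff0 (i : Fin 4) :
    coeff (Finsupp.single 0 1) (exL K i) = ((C2_k i : ℕ) : K) := by
  obtain ⟨m, hm⟩ := C2_eq (K := K) i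
  rw [hm, map_add, ED.LIBasic_coeff_mul _ _ (constantCoeff_X _),
    ED.LIBasic_coeff_mul _ _ (constantCoeff_X _), C2_single, C2_single, if_pos rfl,
    if_neg (by decide), constantCoeff_C, mul_one, mul_zero, add_zero]

private theorem C2_sq (i : Fin 4) (k : Fin 4) :
    coeff (Finsupp.single k 1) (exL K i ^ 2) = 0 := by
  rw [pow_two, ED.LIBasic_coeff_mul _ _ (C2_const i), C2_const, zero_mul]

private theorem C2_cc (i : Fin 4) : constantCoeff (X 2 - exL K i ^ 2) = 0 := by
  rw [map_sub, map_pow, C2_const, constantCoeff_X, zero_pow two_ne_zero, sub_zero]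

private theorem C2_lin (i : Fin 4) (k : Fin 4) :
    coeff (Finsupp.single k 1) (X 2 - exL K i ^ 2) = if k = 2 then 1 else 0 := by
  rw [map_sub, C2_sq, C2_single, sub_zero]

theorem exL_mem_sq_iff (i : Fin 4) :
    X 2 - exL K i ^ 2 ∈ IsLocalRing.maximalIdeal (MvPowerSeries (Fin 4) K) ∧
      X 2 - exL K i ^ 2 ∉ IsLocalRing.maximalIdeal (MvPowerSeries (Fin 4) K) ^ 2 := by
  refine ⟨(mem_maximalIdeal_iff_constantCoeff _).2 (C2_cc i), fun h => ?_⟩
  have h1 := ((ED.LIBasic1_mem_sq_iff _).1 h).2 2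
  rw [C2_lin, if_pos rfl] at h1
  exact one_ne_zero h1

end

omit [IsAlgClosed K] [CharZero K] in
theorem exL_smooth (i : Fin 4) :
    X 2 - exL K i ^ 2 ∈ IsLocalRing.maximalIdeal (MvPowerSeries (Fin 4) K) ∧
      X 2 - exL K i ^ 2 ∉ IsLocalRing.maximalIdeal (MvPowerSeries (Fin 4) K) ^ 2 :=
  exL_mem_sq_iff i

/-! ### The projection along the `z`-axis -/

section

variable {K : Type} [Field K]

private def C2_idx : Fin 3 → Fin 4 := ![1, 2, 3]

private theorem C2_idx_inj : Function.Injective C2_idx := by decide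

private theorem C2_exZ (i : Fin 3) : exZ K i = X (C2_idx i) := by
  fin_cases i <;> rfl

private theorem C2_li {n m : ℕ} {ι : Fin m → Fin n} (hι : Function.Injective ι) :
    LinIndep (fun i => (X (ι i) : MvPowerSeries (Fin n) K)) := by
  refine ⟨fun i => constantCoeff_X _, ?_⟩
  have h1 : (fun i => fun j : Fin n => coeff (Finsupp.single j 1)
      (X (ι i) : MvPowerSeries (Fin n) K)) = (Pi.basisFun K (Fin n)) ∘ ι := by
    funext i j
    rw [Function.comp_apply, Pi.basisFun_apply, C2_single, Pi.single_apply]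
  rw [h1]
  exact (Pi.basisFun K (Fin n)).linearIndependent.comp _ hι

end

omit [IsAlgClosed K] in
/-- The equation is regular in `z`. -/
theorem isParams_exZ : IsParams (exF K) (exZ K) := by
  have hZ : exZ K = fun i => (X (C2_idx i) : MvPowerSeries (Fin 4) K) := funext C2_exZ
  refine ⟨?_, le_antisymm ?_ ?_⟩
  · rw [hZ]
    exact C2_li C2_idx_inj
  · rw [(Ideal.IsMaximal.isPrime inferInstance :
      (IsLocalRing.maximalIdeal (MvPowerSeries (Fin 4) K)).IsPrime).radical_le_iff,
      Ideal.span_le]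
    rintro x (rfl | ⟨i, rfl⟩)
    · exact Ideal.mem_of_dvd _ (Finset.dvd_prod_of_mem _ (Finset.mem_univ 0)) (exL_smooth 0).1
    · rw [C2_exZ]
      exact (mem_maximalIdeal_iff_constantCoeff _).2 (constantCoeff_X _)
  · have hX : ∀ j : Fin 3, (X (C2_idx j) : MvPowerSeries (Fin 4) K) ∈
        Ideal.span (insert (exF K) (Set.range (exZ K))) := fun j =>
      Ideal.subset_span (Set.mem_insert_of_mem _ ⟨j, C2_exZ j⟩)
    have h1 : (X 1 : MvPowerSeries (Fin 4) K) ∈
        Ideal.span (insert (exF K) (Set.range (exZ K))) := hX 0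
    have h2 : (X 2 : MvPowerSeries (Fin 4) K) ∈
        Ideal.span (insert (exF K) (Set.range (exZ K))) := hX 1
    have h3 : (X 3 : MvPowerSeries (Fin 4) K) ∈
        Ideal.span (insert (exF K) (Set.range (exZ K))) := hX 2
    have h0 : (X 0 : MvPowerSeries (Fin 4) K) ∈
        (Ideal.span (insert (exF K) (Set.range (exZ K)))).radical := by
      rw [Ideal.radical_eq_sInf]
      refine Ideal.mem_sInf.2 fun {P} hP => ?_
      obtain ⟨hJ, hPp⟩ := hP
      have hF : (∏ i, (X 2 - exL K i ^ 2)) ∈ P := hJ (Ideal.subset_span (Set.mem_insert _ _))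
      obtain ⟨i, -, hi⟩ := hPp.prod_mem_iff.1 hF
      have h4 : exL K i ^ 2 ∈ P := by
        have h5 := P.sub_mem (hJ h2) hi
        rwa [sub_sub_cancel] at h5
      have h5 : exL K i ∈ P := hPp.mem_of_pow_mem _ h4
      obtain ⟨m, hm⟩ := C2_eq (K := K) i
      have h6 : C ((C2_k i : ℕ) : K) * X 0 ∈ P := by
        have h7 := P.sub_mem h5 (P.mul_mem_left m (hJ h1))
        rwa [hm, add_sub_cancel_right] at h7
      rcases hPp.mem_or_mem h6 with h7 | h7
      · refine absurd (Ideal.eq_top_of_isUnit_mem _ h7 ?_) hPp.ne_top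
        rw [MvPowerSeries.isUnit_iff_constantCoeff, constantCoeff_C, isUnit_iff_ne_zero,
          Nat.cast_ne_zero]
        fin_cases i <;> decide
      · exact h7
    rw [maximalIdeal_eq_span_X, Ideal.span_le]
    rintro x ⟨i, rfl⟩
    fin_cases i
    · exact h0
    · exact Ideal.le_radical h1
    · exact Ideal.le_radical h2
    · exact Ideal.le_radical h3

omit [IsAlgClosed K] [CharZero K] in
/-- The projection along the `z`-axis is permissible. -/
theorem permissible_exZ : Permissible (exI K) (exZ K) := by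
  have hlin : ∀ (i j : Fin 4), lin (X i : MvPowerSeries (Fin 4) K) (Pi.single j 1) =
      if i = j then 1 else 0 := by
    intro i j
    unfold lin
    rw [Finset.sum_eq_single i]
    · rw [C2_single, if_pos rfl, one_mul, Pi.single_apply]
    · intro k _ hk
      rw [C2_single, if_neg hk, zero_mul]
    · intro h
      exact absurd (Finset.mem_univ _) h
  refine ⟨Pi.single 0 1, fun i => ?_, X 0, Ideal.subset_span (by simp), ?_⟩
  · rw [C2_exZ, hlin, if_neg]
    revert i
    decide
  · rw [hlin, if_pos rfl]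
    exact one_ne_zero

/-! ### Convergence -/

private noncomputable def C2_S (n : ℕ) : Subring (MvPowerSeries (Fin n) ℂ) :=
  (MvPolynomial.coeToMvPowerSeries.ringHom :
    MvPolynomial (Fin n) ℂ →+* MvPowerSeries (Fin n) ℂ).range

private theorem C2_conv {n : ℕ} {h : MvPowerSeries (Fin n) ℂ} (hh : h ∈ C2_S n) :
    IsConvergent h := by
  obtain ⟨P, rfl⟩ := hh
  refine isConvergent_of_finite (P.support.finite_toSet.subset fun ν hν => ?_)
  have h1 : coeff ν (MvPolynomial.coeToMvPowerSeries.ringHom P : MvPowerSeries (Fin n) ℂ) =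
      MvPolynomial.coeff ν P := MvPolynomial.coeff_coe P ν
  have h2 : coeff ν (MvPolynomial.coeToMvPowerSeries.ringHom P : MvPowerSeries (Fin n) ℂ) ≠ 0 :=
    hν
  rw [h1] at h2
  exact Finset.mem_coe.2 (MvPolynomial.mem_support_iff.2 h2)

private theorem C2_X {n : ℕ} (j : Fin n) : (X j : MvPowerSeries (Fin n) ℂ) ∈ C2_S n :=
  ⟨MvPolynomial.X j, MvPolynomial.coe_X j⟩

theorem exF_convergent : IsConvergent (exF ℂ) := by
  refine C2_conv (Subring.prod_mem _ fun i _ => sub_mem (C2_X 2) (pow_mem ?_ 2))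
  have X0 := C2_X (n := 4) 0
  have X1 := C2_X (n := 4) 1
  have X3 := C2_X (n := 4) 3
  have hn : ∀ k : ℕ, ((k : ℕ) : MvPowerSeries (Fin 4) ℂ) ∈ C2_S 4 := fun k => natCast_mem _ k
  fin_cases i
  · exact mul_mem (hn 2) X0
  · exact add_mem (mul_mem (hn 4) X0) X1
  · exact add_mem X0 X1
  · exact add_mem (mul_mem (hn 3) X0) (mul_mem (add_mem (hn 2) X3) X1)

/-! ### The equation is square-free -/

section

variable {K : Type} [Field K]

private theorem C2_prime (i : Fin 4) : Prime (X 2 - exL K i ^ 2) :=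
  ED.prime_of_notMem_sq (exL_mem_sq_iff i).1 (exL_mem_sq_iff i).2

/-- What the divisibility by one of the factors implies for the linear part. -/
private theorem C2_dvd {i : Fin 4} {g : MvPowerSeries (Fin 4) K}
    (h : (X 2 - exL K i ^ 2) ∣ g) : coeff (Finsupp.single 0 1) g = 0 := by
  obtain ⟨q, rfl⟩ := h
  rw [mul_comm, ED.LIBasic_coeff_mul _ _ (C2_cc i), C2_lin, if_neg (by decide), mul_zero]

end

omit [IsAlgClosed K] in
theorem exF_radical : (Ideal.span {exF K}).IsRadical := by
  have hrad : ED.Rad (exF K) := by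
    refine ED.Rad.prod _ (fun i => C2_prime _) ?_
    intro i j hij hdvd
    have h1 : (X 2 - exL K i ^ 2) ∣ (exL K i - exL K j) * (exL K i + exL K j) := by
      have h2 : (exL K i - exL K j) * (exL K i + exL K j) =
          (X 2 - exL K j ^ 2) - (X 2 - exL K i ^ 2) := by ring
      rw [h2]
      exact dvd_sub hdvd dvd_rfl
    rcases (C2_prime i).dvd_or_dvd h1 with h2 | h2
    · have h3 := C2_dvd h2
      rw [map_sub, C2_coeff0, C2_coeff0, sub_eq_zero, Nat.cast_inj] at h3
      exact hij (C2_k_inj h3)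
    · have h3 := C2_dvd h2
      rw [map_add, C2_coeff0, C2_coeff0, ← Nat.cast_add, Nat.cast_eq_zero] at h3
      exact C2_k_ne i (Nat.eq_zero_of_add_eq_zero_right h3)
  intro x hx
  obtain ⟨N, hN⟩ := Ideal.mem_radical_iff.1 hx
  exact Ideal.mem_span_singleton.2 (hrad x N (Ideal.mem_span_singleton.1 hN))

/-! ### `W` -/

omit [IsAlgClosed K] [CharZero K] in
theorem exI_smooth : IsSmoothGerm 3 (exI K) := by
  refine ⟨fun i => X ((![0, 1, 2] : Fin 3 → Fin 4) i), C2_li (by decide), ?_⟩
  unfold exI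
  congr 1
  ext x
  simp only [Set.mem_insert_iff, Set.mem_singleton_iff, Set.mem_range]
  constructor
  · rintro (rfl | rfl | rfl)
    · exact ⟨0, rfl⟩
    · exact ⟨1, rfl⟩
    · exact ⟨2, rfl⟩
  · rintro ⟨i, rfl⟩
    fin_cases i
    · left; rfl
    · right; left; rfl
    · right; right; rfl

omit [IsAlgClosed K] [CharZero K] in
theorem exF_sing : singIdeal (exF K) ≤ exI K := by
  refine singIdeal_le_of_mem_sq _ _ ?_
  have hX0 : (X 0 : MvPowerSeries (Fin 4) K) ∈ exI K := Ideal.subset_span (by simp)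
  have hX1 : (X 1 : MvPowerSeries (Fin 4) K) ∈ exI K := Ideal.subset_span (by simp)
  have hX2 : (X 2 : MvPowerSeries (Fin 4) K) ∈ exI K := Ideal.subset_span (by simp)
  have hfac : ∀ i, (X 2 - exL K i ^ 2 : MvPowerSeries (Fin 4) K) ∈ exI K := by
    intro i
    obtain ⟨m, hm⟩ := C2_eq (K := K) i
    refine Ideal.sub_mem _ hX2 (Ideal.pow_mem_of_mem _ ?_ 2 (by norm_num))
    rw [hm]
    exact Ideal.add_mem _ (Ideal.mul_mem_left _ _ hX0) (Ideal.mul_mem_left _ _ hX1)
  have h1 : exF K = ((X 2 - exL K 0 ^ 2) * (X 2 - exL K 1 ^ 2)) *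
      ∏ i : Fin 2, (X 2 - exL K i.succ.succ ^ 2) := by
    unfold exF
    rw [Fin.prod_univ_succ, Fin.prod_univ_succ, mul_assoc]
    rfl
  rw [h1, pow_two]
  exact Ideal.mul_mem_right _ _ (Ideal.mul_mem_mul (hfac 0) (hfac 1))

end Pool.Agent.Helper38.SC
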