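import Pool.Agent.Helper38.GP.ArcMain
import Pool.Agent.Helper38.ED.Calc0D

/-! Double curves with a common tangent at the origin: the critical variety of a generic projection
is not equisingular. -/

namespace Pool.Agent.Helper38.SC

open MvPowerSeries Pool.Agent.Helper38.EQ Pool.Agent.Helper38.GP
open Pool.Agent.Helper38.ED (LI)

/-- Completion of independent power series to a system of coordinates. -/
theorem exists_coord {n m : ℕ} {K : Type} [Field K] {h : Fin m → MvPowerSeries (Fin n) K}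
    (hh : LI h) : ∃ (τ : MvPowerSeries (Fin n) K ≃ₐ[K] MvPowerSeries (Fin n) K)
      (j : Fin m → Fin n), Function.Injective j ∧ ∀ i, τ (X (j i)) = h i := by
  classical
  let v : Fin m → Fin n → K := fun i j => coeff (Finsupp.single j 1) (h i)
  have hv : LinearIndependent K v := hh.2
  let b := Module.Basis.sumExtend hv
  let e : (Fin m ⊕ Module.Basis.sumExtendIndex hv) ≃ Fin n := b.indexEquiv (Pi.basisFun K (Fin n))
  have hb : ∀ i, b (Sum.inl i) = v i := fun i => by
    simp only [b, Module.Basis.sumExtend]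
    rw [Module.Basis.reindex_apply, Module.Basis.extend_apply_self]
    rfl
  let y : Fin n → MvPowerSeries (Fin n) K := fun k =>
    Sum.elim h (fun x => ∑ j, C (b (Sum.inr x) j) * X j) (e.symm k)
  have hy : ∀ i, y (e (Sum.inl i)) = h i := fun i => by
    simp [y]
  have h0 : ∀ k, constantCoeff (y k) = 0 := by
    intro k
    obtain ⟨s, rfl⟩ := e.surjective k
    rcases s with i | x
    · rw [hy]
      exact hh.1 i
    · simp [y]
  have hlin : ∀ s j, coeff (Finsupp.single j 1) (y (e s)) = b s j := by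
    intro s j
    rcases s with i | x
    · rw [hy, hb]
    · simp only [y, Equiv.symm_apply_apply, Sum.elim_inr, map_sum, coeff_C_mul]
      rw [Finset.sum_eq_single j]
      · rw [coeff_X, if_pos rfl, mul_one]
      · intro k _ hk
        rw [coeff_X, if_neg, mul_zero]
        intro h3
        exact hk ((Finsupp.single_left_injective one_ne_zero h3).symm)
      · intro h3
        exact absurd (Finset.mem_univ _) h3
  have hdet : (Matrix.of fun i j => coeff (Finsupp.single j 1) (y i)).det ≠ 0 := by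
    have h1 : LinearIndependent K
        (Matrix.of fun i j => coeff (Finsupp.single j 1) (y i) : Matrix (Fin n) (Fin n) K).row := by
      have h2 : (Matrix.of fun i j => coeff (Finsupp.single j 1) (y i) :
          Matrix (Fin n) (Fin n) K).row = b ∘ e.symm := by
        funext i j
        obtain ⟨s, rfl⟩ := e.surjective i
        simp only [Matrix.row, Matrix.of_apply, Function.comp, Equiv.symm_apply_apply]
        exact hlin s j
      rw [h2]
      exact b.linearIndependent.comp _ e.symm.injective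
    rw [Matrix.linearIndependent_rows_iff_isUnit, Matrix.isUnit_iff_isUnit_det] at h1
    exact h1.ne_zero
  obtain ⟨τ, hτ⟩ := exists_algEquiv y (span_eq_of_linear y h0 hdet)
  exact ⟨τ, fun i => e (Sum.inl i), fun i i' hi => Sum.inl_injective (e.injective hi),
    fun i => by rw [hτ, hy]⟩

/-- The exponent is bounded below by the restriction to `w = 0`. -/
theorem dvd_of_om {d : ℕ} {K : Type} [Field K] {x : WS d K} {k l : ℕ}
    (h : PowerSeries.X ^ l ∣ om d K x) (hk : Associated x (PowerSeries.X ^ k)) :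
    PowerSeries.X ^ l ∣ x := by
  refine (pow_dvd_pow _ ?_).trans hk.symm.dvd
  have h1 : Associated (om d K x) (PowerSeries.X ^ k : PowerSeries K) := by
    have h2 := hk.map (om d K)
    have h3 : om d K (PowerSeries.X ^ k) = (PowerSeries.X ^ k : PowerSeries K) := by
      simp [om]
    rwa [h3] at h2
  exact (pow_dvd_pow_iff PowerSeries.X_ne_zero PowerSeries.X_prime.not_isUnit).1 (h.trans h1.dvd)

/-- Cubes. -/
theorem dvd_of_cube {S : Type} [CommRing S] {s u v x : S} {k : ℕ} (hu : s ^ k ∣ u)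
    (hv : s ^ k ∣ v) (hx : x ∈ Ideal.span {v, u} ^ 3) : s ^ (3 * k) ∣ x := by
  have h1 : Ideal.span {v, u} ≤ Ideal.span {s ^ k} := by
    rw [Ideal.span_le]
    intro y hy
    rcases hy with rfl | hy
    · exact Ideal.mem_span_singleton.2 hv
    · rw [Set.mem_singleton_iff.1 hy]
      exact Ideal.mem_span_singleton.2 hu
  have h2 := Ideal.pow_right_mono h1 3 hx
  rw [Ideal.span_singleton_pow, Ideal.mem_span_singleton, ← pow_mul, mul_comm] at h2
  exact h2

/-- The image of the hypothesis under a homomorphism. -/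
theorem map_cube {R S : Type} [CommRing R] [CommRing S] (φ : R →+* S) {m a x : R}
    (h : x ∈ Ideal.span {m, a} ^ 3) : φ x ∈ Ideal.span {φ m, φ a} ^ 3 := by
  have h1 := Ideal.mem_map_of_mem φ h
  rwa [Ideal.map_pow, Ideal.map_span, Set.image_pair] at h1

/-- The star. -/
theorem star {K : Type} [Field K] [IsAlgClosed K] [CharZero K] {𝒞 : ProjClass K}
    {r n d : ℕ} (hn : n = r + d + 1) {m a e g h₁ h₂ h₃ : MvPowerSeries (Fin n) K}
    (hLI : LI ![m, a, e])
    (h1 : h₁ - m * (3 * m - 2 * a) ∈ Ideal.span {m, a} ^ 3)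
    (h2 : h₂ - (m + e * a) * (2 * m + (1 + e) * a) ∈ Ideal.span {m, a} ^ 3)
    (h3 : h₃ - (3 * a - m) * (3 * m - a) ∈ Ideal.span {m, a} ^ 3)
    {N : ℕ} (hg1 : h₁ ∣ g ^ N) (hg2 : h₂ ∣ g ^ N) (hg3 : h₃ ∣ g ^ N)
    {I : Ideal (MvPowerSeries (Fin n) K)} (h : Equi 𝒞 r n g I) (hm : m ∈ I) (ha : a ∈ I) :
    e ∈ I := by
  classical
  obtain ⟨τ, j, hj, hτ⟩ := exists_coord hLI
  have hτm : τ.symm m = X (j 0) := by rw [AlgEquiv.symm_apply_eq, hτ 0]; rfl
  have hτa : τ.symm a = X (j 1) := by rw [AlgEquiv.symm_apply_eq, hτ 1]; rfl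
  have hτe : τ.symm e = X (j 2) := by rw [AlgEquiv.symm_apply_eq, hτ 2]; rfl
  obtain ⟨G, hG0, hg0, hL⟩ := h.lifts hn
  let w : Fin n → ℕ := fun k => if k = j 0 then 3 else 2
  have hw : ∀ k, 1 ≤ w k := by
    intro k
    simp only [w]
    split_ifs <;> omega
  have hw0 : w (j 0) = 3 := by simp [w]
  have hw1 : w (j 1) = 2 := by simp [w, hj.eq_iff]
  have hw2 : w (j 2) = 2 := by simp [w, hj.eq_iff]
  have hG' : τ.symm G ≠ 0 := by
    intro h0
    exact hG0 ((map_eq_zero_iff τ.symm τ.symm.injective).1 h0)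
  obtain ⟨κ, γ', hκ, hγG, hγ'⟩ := exists_arc hG' w hw
    (MvPolynomial.X_ne_zero (R := K) (j 1))
  rw [MvPolynomial.eval_X] at hκ
  let γ : MvPowerSeries (Fin n) K →ₐ[K] PowerSeries K := γ'.comp (τ.symm : _ →ₐ[K] _)
  have hγ : ∀ x, γ x = γ' (τ.symm x) := fun x => rfl
  obtain ⟨q, hq, Γ, hΓ1, hΓ2, M, hM⟩ := hL γ (by rw [hγ]; exact hγG)
  have hexp : ∀ (α : K) (l : ℕ), PowerSeries.expand q hq
      (PowerSeries.C α * PowerSeries.X ^ l : PowerSeries K) =
      PowerSeries.C α * PowerSeries.X ^ (l * q) := by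
    intro α l
    rw [map_mul, map_pow, PowerSeries.expand_X, PowerSeries.expand_C, ← pow_mul, mul_comm q l]
  set α := κ (j 1) with hα
  have gm : γ m = PowerSeries.C (κ (j 0)) * PowerSeries.X ^ 3 := by rw [hγ, hτm, hγ', hw0]
  have ga : γ a = PowerSeries.C α * PowerSeries.X ^ 2 := by rw [hγ, hτa, hγ', hw1]
  have ge : γ e = PowerSeries.C (κ (j 2)) * PowerSeries.X ^ 2 := by rw [hγ, hτe, hγ', hw2]
  have dm3 : (PowerSeries.X : PowerSeries K) ^ 3 ∣ γ m := by rw [gm]; exact dvd_mul_left _ _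
  have da : (PowerSeries.X : PowerSeries K) ^ 2 ∣ γ a := by rw [ga]; exact dvd_mul_left _ _
  have de : (PowerSeries.X : PowerSeries K) ^ 2 ∣ γ e := by rw [ge]; exact dvd_mul_left _ _
  have dm : (PowerSeries.X : PowerSeries K) ^ 2 ∣ γ m := (pow_dvd_pow _ (by norm_num)).trans dm3
  have hcube : ∀ x ∈ Ideal.span {m, a} ^ 3, (PowerSeries.X : PowerSeries K) ^ 6 ∣ γ x := by
    intro x hx
    exact dvd_of_cube (k := 2) da dm (map_cube (γ : MvPowerSeries (Fin n) K →+* PowerSeries K) hx)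
  have g1 : (PowerSeries.X : PowerSeries K) ^ 5 ∣ γ h₁ := by
    have h4 : γ h₁ = γ (h₁ - m * (3 * m - 2 * a)) + γ m * (3 * γ m - 2 * γ a) := by
      simp only [map_sub, map_mul, map_ofNat]
      ring
    rw [h4]
    refine dvd_add ((pow_dvd_pow _ (by norm_num)).trans (hcube _ h1)) ?_
    rw [show 5 = 3 + 2 by norm_num, pow_add]
    exact mul_dvd_mul dm3 (dvd_sub (dm.mul_left _) (da.mul_left _))
  have g2 : (PowerSeries.X : PowerSeries K) ^ 5 ∣ γ h₂ := by
    have h4 : γ h₂ = γ (h₂ - (m + e * a) * (2 * m + (1 + e) * a)) +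
        (γ m + γ e * γ a) * (2 * γ m + (1 + γ e) * γ a) := by
      simp only [map_sub, map_mul, map_ofNat, map_add, map_one]
      ring
    rw [h4]
    refine dvd_add ((pow_dvd_pow _ (by norm_num)).trans (hcube _ h2)) ?_
    rw [show 5 = 3 + 2 by norm_num, pow_add]
    refine mul_dvd_mul (dvd_add dm3 ?_) (dvd_add (dm.mul_left _) (da.mul_left _))
    refine (pow_dvd_pow _ (show 3 ≤ 2 + 2 by norm_num)).trans ?_
    rw [pow_add]
    exact mul_dvd_mul de da
  have g3 : (PowerSeries.X : PowerSeries K) ^ 4 ∣ γ h₃ := by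
    have h4 : γ h₃ = γ (h₃ - (3 * a - m) * (3 * m - a)) +
        (3 * γ a - γ m) * (3 * γ m - γ a) := by
      simp only [map_sub, map_mul, map_ofNat]
      ring
    rw [h4]
    refine dvd_add ((pow_dvd_pow _ (by norm_num)).trans (hcube _ h3)) ?_
    rw [show 4 = 2 + 2 by norm_num, pow_add]
    exact mul_dvd_mul (dvd_sub (da.mul_left _) dm) (dvd_sub (dm.mul_left _) da)
  have hexp' : ∀ (l : ℕ) (x : PowerSeries K), PowerSeries.X ^ l ∣ x →
      (PowerSeries.X : PowerSeries K) ^ (l * q) ∣ PowerSeries.expand q hq x := by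
    rintro l x ⟨y, rfl⟩
    rw [map_mul, map_pow, PowerSeries.expand_X, ← pow_mul, mul_comm q l]
    exact dvd_mul_right _ _
  have hdvd : ∀ x : MvPowerSeries (Fin n) K, x ∣ g ^ N → ∀ l, PowerSeries.X ^ l ∣ γ x →
      (PowerSeries.X : WS d K) ^ (l * q) ∣ Γ x := by
    intro x hx l hl
    have h5 : Γ x ∣ PowerSeries.X ^ (M * N) := by
      have h6 : Γ x ∣ Γ g ^ N := by
        rw [← map_pow]
        exact map_dvd Γ hx
      have h7 : Γ g ^ N ∣ PowerSeries.X ^ (M * N) := by
        rw [pow_mul]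
        exact pow_dvd_pow_of_dvd hM.dvd N
      exact h6.trans h7
    obtain ⟨k, hk⟩ := assoc_of_dvd_X_pow h5
    refine dvd_of_om ?_ hk
    rw [hΓ1]
    exact hexp' l _ hl
  have D1 := hdvd _ hg1 5 g1
  have D2 := hdvd _ hg2 5 g2
  have D3 := hdvd _ hg3 4 g3
  have hq1 : 1 ≤ q := Nat.one_le_iff_ne_zero.2 hq
  set u := Γ a with hu
  set v := Γ m with hv
  set θ := Γ e with hθ
  have hs : Prime (PowerSeries.X : WS d K) := PowerSeries.X_prime
  have hsk : ∀ k, (PowerSeries.X : WS d K) ^ k ≠ 0 := fun k => pow_ne_zero _ PowerSeries.X_ne_zero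
  have hunit : ∀ k : ℕ, k ≠ 0 → ∀ x : WS d K, PowerSeries.X ∣ (k : WS d K) * x →
      PowerSeries.X ∣ x := by
    intro k hk x hx
    refine (hs.dvd_or_dvd hx).resolve_left fun h4 => ?_
    have h5 := (PowerSeries.X_dvd_iff.1 h4)
    rw [map_natCast] at h5
    have h6 := congrArg (constantCoeff (σ := Fin d) (R := K)) h5
    rw [map_natCast, map_zero] at h6
    exact hk (Nat.cast_eq_zero.1 h6)
  have c1 : ∀ k, (PowerSeries.X : WS d K) ^ k ∣ u → (PowerSeries.X : WS d K) ^ k ∣ v →
      (PowerSeries.X : WS d K) ^ (3 * k) ∣ Γ h₁ - v * (3 * v - 2 * u) := by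
    intro k hku hkv
    have h4 := dvd_of_cube hku hkv
      (map_cube (Γ : MvPowerSeries (Fin n) K →+* WS d K) h1)
    have h5 : (Γ : MvPowerSeries (Fin n) K →+* WS d K) (h₁ - m * (3 * m - 2 * a)) =
        Γ h₁ - v * (3 * v - 2 * u) := by
      change Γ (h₁ - m * (3 * m - 2 * a)) = _
      simp only [map_sub, map_mul, map_ofNat, hv, hu]
    rwa [h5] at h4
  have c2 : ∀ k, (PowerSeries.X : WS d K) ^ k ∣ u → (PowerSeries.X : WS d K) ^ k ∣ v →
      (PowerSeries.X : WS d K) ^ (3 * k) ∣ Γ h₂ - (v + θ * u) * (2 * v + (1 + θ) * u) := by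
    intro k hku hkv
    have h4 := dvd_of_cube hku hkv
      (map_cube (Γ : MvPowerSeries (Fin n) K →+* WS d K) h2)
    have h5 : (Γ : MvPowerSeries (Fin n) K →+* WS d K)
        (h₂ - (m + e * a) * (2 * m + (1 + e) * a)) =
        Γ h₂ - (v + θ * u) * (2 * v + (1 + θ) * u) := by
      change Γ (h₂ - (m + e * a) * (2 * m + (1 + e) * a)) = _
      simp only [map_sub, map_mul, map_ofNat, map_add, map_one, hv, hu, hθ]
    rwa [h5] at h4
  have c3 : ∀ k, (PowerSeries.X : WS d K) ^ k ∣ u → (PowerSeries.X : WS d K) ^ k ∣ v →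
      (PowerSeries.X : WS d K) ^ (3 * k) ∣ Γ h₃ - (3 * u - v) * (3 * v - u) := by
    intro k hku hkv
    have h4 := dvd_of_cube hku hkv
      (map_cube (Γ : MvPowerSeries (Fin n) K →+* WS d K) h3)
    have h5 : (Γ : MvPowerSeries (Fin n) K →+* WS d K) (h₃ - (3 * a - m) * (3 * m - a)) =
        Γ h₃ - (3 * u - v) * (3 * v - u) := by
      change Γ (h₃ - (3 * a - m) * (3 * m - a)) = _
      simp only [map_sub, map_mul, map_ofNat, hv, hu]
    rwa [h5] at h4
  -- the products of the linear factors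
  have fac : ∀ (k : ℕ) (x p : WS d K) (l : ℕ), 1 ≤ k → 2 * k + 1 ≤ l →
      (PowerSeries.X : WS d K) ^ l ∣ x →
      (PowerSeries.X : WS d K) ^ (3 * k) ∣ x - PowerSeries.X ^ (2 * k) * p →
      PowerSeries.X ∣ p := by
    intro k x p l hk hl hx hxp
    have h4 : (PowerSeries.X : WS d K) ^ (2 * k + 1) ∣ PowerSeries.X ^ (2 * k) * p := by
      have h5 : PowerSeries.X ^ (2 * k) * p = x - (x - PowerSeries.X ^ (2 * k) * p) := by ring
      rw [h5]
      exact dvd_sub ((pow_dvd_pow _ hl).trans hx) ((pow_dvd_pow _ (by omega)).trans hxp)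
    rw [pow_succ] at h4
    exact (mul_dvd_mul_iff_left (hsk _)).1 h4
  have key : ∀ k, 1 ≤ k → k ≤ 2 * q → (PowerSeries.X : WS d K) ^ k ∣ u ∧
      (PowerSeries.X : WS d K) ^ k ∣ v := by
    intro k hk
    induction k, hk using Nat.le_induction with
    | base =>
      intro _
      rw [pow_one]
      exact ⟨PowerSeries.X_dvd_iff.2 ((hΓ2 a).2 ha), PowerSeries.X_dvd_iff.2 ((hΓ2 m).2 hm)⟩
    | succ k hk ih =>
      intro hkq
      obtain ⟨hku, hkv⟩ := ih (by omega)
      obtain ⟨u1, hu1⟩ := hku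
      obtain ⟨v1, hv1⟩ := hkv
      have e1 : PowerSeries.X ∣ v1 * (3 * v1 - 2 * u1) := by
        refine fac k (Γ h₁) _ (5 * q) hk (by omega) D1 ?_
        have h4 := c1 k ⟨u1, hu1⟩ ⟨v1, hv1⟩
        rw [hu1, hv1] at h4
        convert h4 using 2
        ring
      have e3 : PowerSeries.X ∣ (3 * u1 - v1) * (3 * v1 - u1) := by
        refine fac k (Γ h₃) _ (4 * q) hk (by omega) D3 ?_
        have h4 := c3 k ⟨u1, hu1⟩ ⟨v1, hv1⟩
        rw [hu1, hv1] at h4
        convert h4 using 2
        ring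
      have h5 : PowerSeries.X ∣ u1 ∧ PowerSeries.X ∣ v1 := by
        rcases hs.dvd_or_dvd e1 with h6 | h6
        · refine ⟨?_, h6⟩
          rcases hs.dvd_or_dvd e3 with h7 | h7
          · have h8 := dvd_add h7 h6
            rw [sub_add_cancel] at h8
            exact hunit 3 (by norm_num) _ (by exact_mod_cast h8)
          · have h8 := dvd_sub (h6.mul_left 3) h7
            rwa [sub_sub_cancel] at h8
        · have h9 : PowerSeries.X ∣ u1 := by
            rcases hs.dvd_or_dvd e3 with h7 | h7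
            · have h8 := dvd_add (h7.mul_left 3) h6
              refine hunit 7 (by norm_num) _ ?_
              have h10 : 3 * (3 * u1 - v1) + (3 * v1 - 2 * u1) = ((7 : ℕ) : WS d K) * u1 := by
                push_cast
                ring
              rwa [h10] at h8
            · have h8 := dvd_sub h7 h6
              have h10 : 3 * v1 - u1 - (3 * v1 - 2 * u1) = u1 := by ring
              rwa [h10] at h8
          refine ⟨h9, ?_⟩
          have h8 := dvd_add h6 (h9.mul_left 2)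
          rw [sub_add_cancel] at h8
          exact hunit 3 (by norm_num) _ (by exact_mod_cast h8)
      rw [hu1, hv1, pow_succ]
      exact ⟨mul_dvd_mul_left _ h5.1, mul_dvd_mul_left _ h5.2⟩
  obtain ⟨⟨u1, hu1⟩, ⟨v1, hv1⟩⟩ := key (2 * q) (by omega) le_rfl
  have e1 : PowerSeries.X ∣ v1 * (3 * v1 - 2 * u1) := by
    refine fac (2 * q) (Γ h₁) _ (5 * q) (by omega) (by omega) D1 ?_
    have h4 := c1 (2 * q) ⟨u1, hu1⟩ ⟨v1, hv1⟩
    rw [hu1, hv1] at h4
    convert h4 using 2
    ring
  have e2 : PowerSeries.X ∣ (v1 + θ * u1) * (2 * v1 + (1 + θ) * u1) := by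
    refine fac (2 * q) (Γ h₂) _ (5 * q) (by omega) (by omega) D2 ?_
    have h4 := c2 (2 * q) ⟨u1, hu1⟩ ⟨v1, hv1⟩
    rw [hu1, hv1] at h4
    convert h4 using 2
    ring
  have omX : ∀ k, om d K (PowerSeries.X ^ k) = (PowerSeries.X ^ k : PowerSeries K) := by
    intro k
    simp [om]
  have omdvd : ∀ x : WS d K, PowerSeries.X ∣ x → (PowerSeries.X : PowerSeries K) ∣ om d K x := by
    rintro x ⟨y, rfl⟩
    have h4 := omX 1
    rw [pow_one, pow_one] at h4
    rw [map_mul, h4]
    exact dvd_mul_right _ _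
  have omu : om d K u1 = PowerSeries.C α := by
    have h4 := hΓ1 a
    rw [← hu, hu1, map_mul, omX, ga, hexp, mul_comm (PowerSeries.C α)] at h4
    exact mul_left_cancel₀ (pow_ne_zero _ PowerSeries.X_ne_zero) h4
  have omv : (PowerSeries.X : PowerSeries K) ∣ om d K v1 := by
    have h4 := hΓ1 m
    rw [← hv, hv1, map_mul, omX, gm, hexp, mul_comm (PowerSeries.C (κ (j 0))),
      show 3 * q = 2 * q + q by ring, pow_add, mul_assoc] at h4
    rw [mul_left_cancel₀ (pow_ne_zero _ PowerSeries.X_ne_zero) h4]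
    exact (dvd_pow_self _ hq).mul_right _
  have omθ : (PowerSeries.X : PowerSeries K) ∣ om d K θ := by
    have h4 := hΓ1 e
    rw [← hθ, ge, hexp] at h4
    rw [h4]
    exact (dvd_pow_self _ (by omega)).mul_left _
  have hnC : ∀ c : K, c ≠ 0 → ¬ (PowerSeries.X : PowerSeries K) ∣ PowerSeries.C c := by
    intro c hc h4
    rw [PowerSeries.X_dvd_iff, PowerSeries.constantCoeff_C] at h4
    exact hc h4
  have hnu : ¬ PowerSeries.X ∣ u1 := fun h4 => hnC α hκ (omu ▸ omdvd _ h4)
  have hn1 : ¬ PowerSeries.X ∣ 1 + θ := by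
    intro h4
    have h5 := dvd_sub (omdvd _ h4) omθ
    rw [map_add, map_one, add_sub_cancel_right] at h5
    exact hnC 1 one_ne_zero (by rwa [map_one])
  have hv1' : PowerSeries.X ∣ v1 := by
    refine (hs.dvd_or_dvd e1).resolve_right fun h4 => ?_
    have h5 := dvd_sub (omv.mul_left 3) (omdvd _ h4)
    rw [map_sub, map_mul, map_mul, map_ofNat, map_ofNat, omu, sub_sub_cancel] at h5
    refine hnC (2 * α) (mul_ne_zero two_ne_zero hκ) ?_
    rwa [map_mul, map_ofNat]
  have hfin : PowerSeries.X ∣ θ := by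
    rcases hs.dvd_or_dvd e2 with h4 | h4
    · have h5 := dvd_sub h4 hv1'
      rw [add_sub_cancel_left] at h5
      exact (hs.dvd_or_dvd h5).resolve_right hnu
    · exfalso
      have h5 := dvd_sub h4 (hv1'.mul_left 2)
      rw [add_sub_cancel_left] at h5
      rcases hs.dvd_or_dvd h5 with h6 | h6
      · exact hn1 h6
      · exact hnu h6
  exact (hΓ2 e).1 (PowerSeries.X_dvd_iff.1 hfin)

end Pool.Agent.Helper38.SC
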