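import Pool.Agent.Helper38.SC.Example
import Pool.Agent.Helper38.SC.Star
import Pool.Agent.Helper38.GP.Final
import Pool.Agent.Helper85.R2.Good
import Pool.Agent.Helper85.R2.Gen

/-! Block C3: no transversal projection is equisingular. -/

namespace Pool.Agent.Helper38.SC

open MvPowerSeries Pool.Agent.Helper38.EQ
open Pool.Agent.Helper38.GP hiding star exF exI neg_ex generic_ex good_proj_ex equi_ex
  exF_convergent exF_radical exI_smooth exF_sing
open Pool.Agent.Helper38.ED (LI discr_prod)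

theorem LI_of_span {n : ℕ} {K : Type} [Field K] (v : Fin n → MvPowerSeries (Fin n) K)
    (h : Ideal.span (Set.range v) = IsLocalRing.maximalIdeal (MvPowerSeries (Fin n) K)) :
    LI v := by
  obtain ⟨h0, hdet⟩ := linear_of_span_eq v h
  exact ⟨h0, Matrix.linearIndependent_rows_of_det_ne_zero hdet⟩

theorem X_mem {n : ℕ} {K : Type} [Field K] (i : Fin n) :
    (X i : MvPowerSeries (Fin n) K) ∈ IsLocalRing.maximalIdeal (MvPowerSeries (Fin n) K) := by
  rw [mem_maximalIdeal_iff_constantCoeff, constantCoeff_X]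

theorem exL_mem {K : Type} [Field K] (i : Fin 4) :
    exL K i ∈ IsLocalRing.maximalIdeal (MvPowerSeries (Fin 4) K) := by
  fin_cases i
  · exact Ideal.mul_mem_left _ _ (X_mem 0)
  · exact Ideal.add_mem _ (Ideal.mul_mem_left _ _ (X_mem 0)) (X_mem 1)
  · exact Ideal.add_mem _ (X_mem 0) (X_mem 1)
  · exact Ideal.add_mem _ (Ideal.mul_mem_left _ _ (X_mem 0)) (Ideal.mul_mem_left _ _ (X_mem 1))

/-- The components. -/
noncomputable def cp (K : Type) [Field K] (i : Fin 4) : MvPowerSeries (Fin 4) K :=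
  X 2 - exL K i ^ 2

theorem cp_mem {K : Type} [Field K] (i : Fin 4) :
    cp K i ∈ IsLocalRing.maximalIdeal (MvPowerSeries (Fin 4) K) :=
  Ideal.sub_mem _ (X_mem 2) (Ideal.pow_le_self two_ne_zero (Ideal.pow_mem_pow (exL_mem i) 2))

private theorem C3_tr_mul {n : ℕ} {K : Type} [Field K] (p : Proj n K)
    {x : MvPowerSeries (Fin (n + 1)) K}
    (hx : x ∈ IsLocalRing.maximalIdeal (MvPowerSeries (Fin (n + 1)) K)) : p.tr (x ^ 2) = 0 := by
  have hc : constantCoeff (PowerSeries.constantCoeff (p.σ x)) = 0 := by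
    have h1 : p.σ x ∈ IsLocalRing.maximalIdeal (PowerSeries (R1 n K)) := by
      rw [IsLocalRing.mem_maximalIdeal, mem_nonunits_iff, isUnit_map_iff]
      exact hx
    rw [IsLocalRing.mem_maximalIdeal, mem_nonunits_iff, PowerSeries.isUnit_iff_constantCoeff,
      MvPowerSeries.isUnit_iff_constantCoeff, isUnit_iff_ne_zero, not_not] at h1
    exact h1
  rw [Proj.tr, map_pow, pow_two, PowerSeries.coeff_one_mul, map_add, map_mul, hc, mul_zero,
    add_zero]

theorem tr_cp {K : Type} [Field K] (p : Proj 3 K) (i : Fin 4) : p.tr (cp K i) = p.tr (X 2) := by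
  have h2 := p.tr_add (cp K i) (exL K i ^ 2)
  rw [C3_tr_mul p (exL_mem i), add_zero] at h2
  rw [← h2, cp, sub_add_cancel]

theorem li_cp {K : Type} [Field K] [CharZero K] :
    LI (Fin.cons (cp K 0) ![2 * X 0 + X 1, X 1, X 3] : Fin 4 → MvPowerSeries (Fin 4) K) := by
  apply LI_of_span
  set J := Ideal.span (Set.range
    (Fin.cons (cp K 0) ![2 * X 0 + X 1, X 1, X 3] : Fin 4 → MvPowerSeries (Fin 4) K)) with hJ
  have hm : ∀ i, (Fin.cons (cp K 0) ![2 * X 0 + X 1, X 1, X 3] :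
      Fin 4 → MvPowerSeries (Fin 4) K) i ∈ J := fun i => Ideal.subset_span ⟨i, rfl⟩
  have h1 : (X 1 : MvPowerSeries (Fin 4) K) ∈ J := hm 2
  have h3 : (X 3 : MvPowerSeries (Fin 4) K) ∈ J := hm 3
  have h0 : (X 0 : MvPowerSeries (Fin 4) K) ∈ J := by
    have h4 : (2 * X 0 + X 1 : MvPowerSeries (Fin 4) K) ∈ J := hm 1
    have h5 : (X 0 : MvPowerSeries (Fin 4) K) =
        C (1 / 2 : K) * ((2 * X 0 + X 1) - X 1) := by
      have h6 : (C (1 / 2 : K) : MvPowerSeries (Fin 4) K) * 2 = 1 := by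
        have h7 : (2 : MvPowerSeries (Fin 4) K) = C (2 : K) := (map_ofNat _ 2).symm
        rw [h7, ← map_mul, one_div, inv_mul_cancel₀ two_ne_zero, map_one]
      rw [add_sub_cancel_right, ← mul_assoc, h6, one_mul]
    rw [h5]
    exact Ideal.mul_mem_left _ _ (Ideal.sub_mem _ h4 h1)
  have h2 : (X 2 : MvPowerSeries (Fin 4) K) ∈ J := by
    have h4 : cp K 0 ∈ J := hm 0
    have h5 : (X 2 : MvPowerSeries (Fin 4) K) = cp K 0 + (4 * X 0) * X 0 := by
      change _ = (X 2 - (2 * X 0) ^ 2) + _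
      ring
    rw [h5]
    exact Ideal.add_mem _ h4 (Ideal.mul_mem_left _ _ h0)
  apply le_antisymm
  · rw [hJ, Ideal.span_le]
    rintro _ ⟨i, rfl⟩
    fin_cases i
    · exact cp_mem 0
    · exact Ideal.add_mem _ (Ideal.mul_mem_left _ _ (X_mem 0)) (X_mem 1)
    · exact X_mem 1
    · exact X_mem 3
  · rw [maximalIdeal_eq_coordIdeal, coordIdeal, Ideal.span_le]
    rintro _ ⟨i, _, rfl⟩
    fin_cases i
    · exact h0
    · exact h1
    · exact h2
    · exact h3

private theorem C3_main {K : Type} [Field K] [IsAlgClosed K] [CharZero K] {𝒞 : ProjClass K}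
    (p : Proj 3 K) (h2 : p.tr (X 2) ≠ 0)
    {F : Polynomial (R1 3 K)} {U : PowerSeries (R1 3 K)}
    (hU : (p.σ (ex (exF K))).IsWeierstrassFactorization F U) {g : R1 3 K}
    (hg : Ideal.span {g} = (Ideal.span {F.discr}).radical)
    (hE : Equi 𝒞 1 3 g (p.img (exI K))) : False := by
  classical
  let s : ∀ i, Sec p (cp K i) := fun i =>
    (exists_sec p _ (cp_mem i) (by rw [tr_cp]; exact h2)).some
  have hF : F = ∏ i, (Polynomial.X - Polynomial.C (s i).r) :=
    factor_unique s (Associated.refl _) hU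
  obtain ⟨N, hN⟩ : ∃ N, F.discr ∣ g ^ N := by
    have h1 : g ∈ (Ideal.span {F.discr}).radical := by
      rw [← hg]
      exact Ideal.mem_span_singleton_self g
    obtain ⟨N, hN⟩ := h1
    exact ⟨N, Ideal.mem_span_singleton.1 hN⟩
  have hdvd : ∀ i j, i ≠ j → (s i).pull (cp K j) ∣ g ^ N := by
    intro i j hij
    refine ((s i).assoc (s j)).dvd.trans ((?_ : _ ∣ F.discr).trans hN)
    rw [hF]
    refine Dvd.dvd.trans ?_ (discr_prod fun i => (s i).r).symm.dvd
    refine Dvd.dvd.trans ?_ (Finset.dvd_prod_of_mem _ (Finset.mem_univ i))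
    exact Finset.dvd_prod_of_mem (fun j => (s i).r - (s j).r)
      (Finset.mem_filter.2 ⟨Finset.mem_univ j, hij.symm⟩)
  set m := (s 0).pull (2 * X 0 + X 1) with hm
  set a := (s 0).pull (X 1) with ha
  set e := (s 0).pull (X 3) with he
  have hI : ∀ x ∈ exI K, ∀ i, (s i).pull x ∈ p.img (exI K) := by
    intro x hx i
    refine (s i).pull_mem_img ?_ hx
    have h1 : (X 2 : MvPowerSeries (Fin 4) K) ∈ exI K := Ideal.subset_span (by simp)
    refine Ideal.sub_mem _ h1 (Ideal.pow_mem_of_mem _ ?_ 2 two_pos)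
    have h3 : (X 0 : MvPowerSeries (Fin 4) K) ∈ exI K := Ideal.subset_span (by simp)
    have h4 : (X 1 : MvPowerSeries (Fin 4) K) ∈ exI K := Ideal.subset_span (by simp)
    fin_cases i
    · exact Ideal.mul_mem_left _ _ h3
    · exact Ideal.add_mem _ (Ideal.mul_mem_left _ _ h3) h4
    · exact Ideal.add_mem _ h3 h4
    · exact Ideal.add_mem _ (Ideal.mul_mem_left _ _ h3) (Ideal.mul_mem_left _ _ h4)
  have hX0 : (X 0 : MvPowerSeries (Fin 4) K) ∈ exI K := Ideal.subset_span (by simp)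
  have hX1 : (X 1 : MvPowerSeries (Fin 4) K) ∈ exI K := Ideal.subset_span (by simp)
  have hmI : m ∈ p.img (exI K) := hI _ (Ideal.add_mem _ (Ideal.mul_mem_left _ _ hX0) hX1) 0
  have haI : a ∈ p.img (exI K) := hI _ hX1 0
  have hLI : LI ![m, a, e] := by
    have h1 := (s 0).LI_pull ![2 * X 0 + X 1, X 1, X 3] li_cp
    have h3 : (fun i => (s 0).pull ((![2 * X 0 + X 1, X 1, X 3] :
        Fin 3 → MvPowerSeries (Fin 4) K) i)) = ![m, a, e] := by
      funext i
      fin_cases i <;> rfl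
    rwa [h3] at h1
  have hpz : ∀ i, (s i).pull (X 2) = (s i).pull (exL K i) ^ 2 := by
    intro i
    have h1 : (s i).pull (X 2 - exL K i ^ 2) = 0 := (s i).pull_self
    rw [map_sub, map_pow, sub_eq_zero] at h1
    exact h1
  have hpc : ∀ i j, (s i).pull (cp K j) =
      (s i).pull (exL K i) ^ 2 - (s i).pull (exL K j) ^ 2 := by
    intro i j
    change (s i).pull (X 2 - exL K j ^ 2) = _
    rw [map_sub, map_pow, hpz]
  have l0 : ∀ i, (s i).pull (exL K 0) = 2 * (s i).pull (X 0) := by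
    intro i
    change (s i).pull (2 * X 0) = _
    rw [map_mul, map_ofNat]
  have l1 : ∀ i, (s i).pull (exL K 1) = 4 * (s i).pull (X 0) + (s i).pull (X 1) := by
    intro i
    change (s i).pull (4 * X 0 + X 1) = _
    rw [map_add, map_mul, map_ofNat]
  have l2 : ∀ i, (s i).pull (exL K 2) = (s i).pull (X 0) + (s i).pull (X 1) := by
    intro i
    change (s i).pull (X 0 + X 1) = _
    rw [map_add]
  have l3 : ∀ i, (s i).pull (exL K 3) =
      3 * (s i).pull (X 0) + (2 + (s i).pull (X 3)) * (s i).pull (X 1) := by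
    intro i
    change (s i).pull (3 * X 0 + (2 + X 3) * X 1) = _
    rw [map_add, map_mul, map_mul, map_add, map_ofNat, map_ofNat]
  have lm : m = 2 * (s 0).pull (X 0) + a := by
    rw [hm, map_add, map_mul, map_ofNat]
  -- the section 2
  set J := Ideal.span {m, a} with hJ
  have hmJ : m ∈ J := Ideal.subset_span (by simp)
  have haJ : a ∈ J := Ideal.subset_span (by simp)
  have h4u : IsUnit (4 : R1 3 K) := by
    have h1 : (4 : R1 3 K) = C (4 : K) := (map_ofNat _ 4).symm
    rw [h1]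
    exact (isUnit_iff_ne_zero.2 (by norm_num)).map _
  have hr : ∀ h, (s 2).pull h - (s 0).pull h ∈ J ^ 2 := by
    intro h
    have h1 := (s 0).pull_sub_dvd (s 2) h
    have h3 : (s 2).r - (s 0).r ∈ J ^ 2 := by
      have h5 : (s 0).pull (cp K 2) ∣ (s 2).r - (s 0).r := by
        rw [← dvd_neg, neg_sub]
        exact ((s 0).assoc (s 2)).dvd
      refine Ideal.mem_of_dvd _ h5 ?_
      refine (Ideal.unit_mul_mem_iff_mem _ h4u).1 ?_
      have h6 : 4 * (s 0).pull (cp K 2) = -((3 * a - m) * (3 * m - a)) := by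
        rw [hpc, l0, l2, lm]
        ring
      rw [h6, pow_two]
      exact neg_mem (Ideal.mul_mem_mul
        (Ideal.sub_mem _ (Ideal.mul_mem_left _ _ haJ) hmJ)
        (Ideal.sub_mem _ (Ideal.mul_mem_left _ _ hmJ) haJ))
    exact Ideal.mem_of_dvd _ h1 h3
  have key : e ∈ p.img (exI K) := by
    refine star (d := 1) (n := 3) rfl (m := m) (a := a) (e := e)
      (h₁ := -(s 0).pull (cp K 1)) (h₂ := -(s 2).pull (cp K 3)) (h₃ := -4 * (s 0).pull (cp K 2))
      hLI ?_ ?_ ?_ (N := N) ?_ ?_ ?_ hE hmI haI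
    · have h1 : -(s 0).pull (cp K 1) - m * (3 * m - 2 * a) = 0 := by
        rw [hpc, l0, l1, lm]
        ring
      rw [h1]
      exact Ideal.zero_mem _
    · set z2 := (s 2).pull (X 0) with hz2
      set a2 := (s 2).pull (X 1) with ha2
      set e2 := (s 2).pull (X 3) with he2
      have h1 : -(s 2).pull (cp K 3) =
          (2 * z2 + a2 + e2 * a2) * (2 * (2 * z2 + a2) + (1 + e2) * a2) := by
        rw [hpc, l2, l3]
        ring
      have dm : 2 * z2 + a2 - m ∈ J ^ 2 := by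
        have h3 := hr (2 * X 0 + X 1)
        rw [map_add, map_mul, map_ofNat] at h3
        exact h3
      have da : a2 - a ∈ J ^ 2 := hr (X 1)
      have de : e2 - e ∈ J ^ 2 := hr (X 3)
      have d1 : (2 * z2 + a2 + e2 * a2) - (m + e * a) ∈ J ^ 2 := by
        have h3 : (2 * z2 + a2 + e2 * a2) - (m + e * a) =
            (2 * z2 + a2 - m) + e2 * (a2 - a) + a * (e2 - e) := by ring
        rw [h3]
        exact Ideal.add_mem _ (Ideal.add_mem _ dm (Ideal.mul_mem_left _ _ da))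
          (Ideal.mul_mem_left _ _ de)
      have d2 : (2 * (2 * z2 + a2) + (1 + e2) * a2) - (2 * m + (1 + e) * a) ∈ J ^ 2 := by
        have h3 : (2 * (2 * z2 + a2) + (1 + e2) * a2) - (2 * m + (1 + e) * a) =
            2 * (2 * z2 + a2 - m) + (1 + e2) * (a2 - a) + a * (e2 - e) := by ring
        rw [h3]
        exact Ideal.add_mem _ (Ideal.add_mem _ (Ideal.mul_mem_left _ _ dm)
          (Ideal.mul_mem_left _ _ da)) (Ideal.mul_mem_left _ _ de)
      have c1 : m + e * a ∈ J := Ideal.add_mem _ hmJ (Ideal.mul_mem_left _ _ haJ)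
      have c2 : 2 * m + (1 + e) * a ∈ J :=
        Ideal.add_mem _ (Ideal.mul_mem_left _ _ hmJ) (Ideal.mul_mem_left _ _ haJ)
      have c3 : 2 * z2 + a2 + e2 * a2 ∈ J := by
        have h3 := Ideal.add_mem _ (Ideal.pow_le_self two_ne_zero d1) c1
        rwa [sub_add_cancel] at h3
      have h3 : -(s 2).pull (cp K 3) - (m + e * a) * (2 * m + (1 + e) * a) =
          (2 * z2 + a2 + e2 * a2) *
            ((2 * (2 * z2 + a2) + (1 + e2) * a2) - (2 * m + (1 + e) * a)) +
          ((2 * z2 + a2 + e2 * a2) - (m + e * a)) * (2 * m + (1 + e) * a) := by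
        rw [h1]
        ring
      rw [h3]
      refine Ideal.add_mem _ ?_ ?_
      · rw [pow_succ']
        exact Ideal.mul_mem_mul c3 d2
      · rw [pow_succ]
        exact Ideal.mul_mem_mul d1 c2
    · have h1 : -4 * (s 0).pull (cp K 2) - (3 * a - m) * (3 * m - a) = 0 := by
        rw [hpc, l0, l2, lm]
        ring
      rw [h1]
      exact Ideal.zero_mem _
    · rw [neg_dvd]
      exact hdvd 0 1 (by decide)
    · rw [neg_dvd]
      exact hdvd 2 3 (by decide)
    · exact (IsUnit.mul_left_dvd h4u.neg).2 (hdvd 0 2 (by decide))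
  have hcp0 : cp K 0 ∈ exI K := by
    have h1 : (X 2 : MvPowerSeries (Fin 4) K) ∈ exI K := Ideal.subset_span (by simp)
    exact Ideal.sub_mem _ h1 (Ideal.pow_mem_of_mem _ (Ideal.mul_mem_left _ _ hX0) 2 two_pos)
  have h3 : (X 3 : MvPowerSeries (Fin 4) K) ∈ exI K := (s 0).mem_of_pull_mem hcp0 key
  -- but `t` is not in the ideal of `W`
  obtain ⟨γ, hγ, -⟩ := exists_monomial_arc (K := K) (fun i : Fin 4 => if i = 3 then (1 : K) else 0)
    (fun _ => 1) (fun _ => le_rfl)
  have h4 : exI K ≤ RingHom.ker γ := by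
    rw [exI, Ideal.span_le]
    intro x hx
    rw [SetLike.mem_coe, RingHom.mem_ker]
    simp only [Set.mem_insert_iff, Set.mem_singleton_iff] at hx
    rcases hx with rfl | rfl | rfl <;>
      · rw [hγ, if_neg (by decide), map_zero, zero_mul]
  have h5 := h4 h3
  rw [RingHom.mem_ker, hγ, if_pos rfl, map_one, one_mul, pow_one] at h5
  exact PowerSeries.X_ne_zero h5

variable {K : Type} [Field K] [IsAlgClosed K] [CharZero K]

/-- (C3) No projection with a direction `v`, `v 2 ≠ 0` (these are the transversal ones) is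
equisingular. -/
theorem neg_ex {𝒞 : ProjClass K} (z : Fin 3 → MvPowerSeries (Fin 4) K) {v : Fin 4 → K}
    (hv : ∀ i, lin (z i) v = 0) (hv2 : v 2 ≠ 0) :
    ¬ EquiProj 𝒞 1 (exF K) (exI K) z := by
  rintro ⟨hpar, -, g, I', ⟨σ, F, hσz, ⟨U, hU⟩, hgr, rfl⟩, hE⟩
  have hvne : v ≠ 0 := by
    rintro rfl
    exact hv2 rfl
  obtain ⟨c, hc, hcv⟩ := Pool.Agent.Helper85.R2.exists_smul_tr z hpar.1
    (⟨σ.equiv⟩ : Proj 3 K) hσz hv hvne
  refine C3_main (⟨σ.equiv⟩ : Proj 3 K) (by rw [hcv]; exact mul_ne_zero hc hv2)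
    (F := F) (U := U) ?_ hgr hE
  rw [ex_eq]
  exact hU

omit [IsAlgClosed K] [CharZero K] in
/-- These projections are permissible and transversal, and the `z_i` form a set of parameters. -/
theorem good_proj_ex (z : Fin 3 → MvPowerSeries (Fin 4) K) (hz : LinIndep z) {v : Fin 4 → K}
    (hv : ∀ i, lin (z i) v = 0) (hv2 : v 2 ≠ 0) :
    IsParams (exF K) z ∧ Permissible (exI K) z ∧ Transversal (exF K) z := by
  obtain ⟨p, hp⟩ := exists_proj_of_linIndep z hz
  have hzp : z = fun i => p.σ.symm (PowerSeries.C (X i)) := by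
    funext i
    rw [← hp i, AlgEquiv.symm_apply_apply]
  have hvne : v ≠ 0 := by
    rintro rfl
    exact hv2 rfl
  obtain ⟨c, hc, hcv⟩ := Pool.Agent.Helper85.R2.exists_smul_tr z hz p hp hv hvne
  have h2 : p.tr (X 2) ≠ 0 := by
    rw [hcv]
    exact mul_ne_zero hc hv2
  have ht : ∀ i, p.tr (cp K i) ≠ 0 := fun i => by
    rw [tr_cp]
    exact h2
  have hX2 : (X 2 : MvPowerSeries (Fin 4) K) ∈ exI K := Ideal.subset_span (by simp)
  rw [hzp]
  exact ⟨isParams_of_tr p cp_mem ht (by norm_num) (Associated.refl _),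
    permissible_of_tr p hX2 h2, transversal_of_tr p cp_mem ht (Associated.refl _)⟩

/-- For almost all convergent projections: not equisingular. -/
theorem generic_ex (G : MvPolynomial (Fin 3 × {ν : Fin 4 →₀ ℕ // ν ≠ 0}) ℂ) (hG : G ≠ 0) :
    ∃ z : Fin 3 → MvPowerSeries (Fin 4) ℂ,
      (∀ i, IsConvergent (z i) ∧ constantCoeff (z i) = 0) ∧
      MvPolynomial.eval (fun p => coeff p.2.1 (z p.1)) G ≠ 0 ∧
      IsParams (exF ℂ) z ∧ Permissible (exI ℂ) z ∧ Transversal (exF ℂ) z ∧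
      ¬ EquiProj (Formal ℂ) 1 (exF ℂ) (exI ℂ) z ∧
      ¬ EquiProj Convergent 1 (exF ℂ) (exI ℂ) z := by
  obtain ⟨z, v, h1, h2, h3, h4, -, h6⟩ := Pool.Agent.Helper85.R2.exists_generic_of G hG
    (MvPolynomial.X 2) (MvPolynomial.X_ne_zero 2)
  rw [MvPolynomial.eval_X] at h6
  obtain ⟨h7, h8, h9⟩ := good_proj_ex z h3 h4 h6
  exact ⟨z, h1, h2, h7, h8, h9, neg_ex z h4 h6, neg_ex z h4 h6⟩

end Pool.Agent.Helper38.SC
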