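import Pool.Agent.Helper38.GP.Stmt

/-! The example: four smooth sheets in `4`-space, equisingular by a projection which is not
transversal. -/

namespace Pool.Agent.Helper38.SC

open MvPowerSeries Pool.Agent.Helper38.EQ Pool.Agent.Helper38.GP

/-- The four polynomials `l_i`; the coordinates are `z = X 0`, `x = X 1`, `y = X 2`, `t = X 3`. -/
noncomputable def exL (K : Type) [Field K] : Fin 4 → MvPowerSeries (Fin 4) K :=
  ![2 * X 0, 4 * X 0 + X 1, X 0 + X 1, 3 * X 0 + (2 + X 3) * X 1]

/-- The equation of `V`: the product of the four polynomials `y - l_i ^ 2`. -/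
noncomputable def exF (K : Type) [Field K] : MvPowerSeries (Fin 4) K :=
  ∏ i, (X 2 - exL K i ^ 2)

/-- The ideal of `W`: the line `z = x = y = 0`. -/
noncomputable def exI (K : Type) [Field K] : Ideal (MvPowerSeries (Fin 4) K) :=
  Ideal.span {X 0, X 1, X 2}

/-- The coordinate functions `x, y, t`: the projection along the `z`-axis. -/
noncomputable def exZ (K : Type) [Field K] : Fin 3 → MvPowerSeries (Fin 4) K :=
  ![X 1, X 2, X 3]

/-- The constant terms of the polynomials `u_k`; the components of the critical variety are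
`y = u_k ^ 2 x ^ 2`: `k = 0` for the critical values of the four sheets, `u = 1, 1/3` for the sheets
`0, 1`, `u = 2, 2/3` for `0, 2`, `u = 1, 3/5` for `1, 2`, `u = 4 + 2 t, (4 + 2 t)/5` for `0, 3`,
`u = 5 + 4 t, (5 + 4 t)/7` for `1, 3`, and `u = (1 - t)/2, (1 - t)/4` for `2, 3`. -/
def uα : Fin 12 → ℚ := ![0, 1, 1 / 3, 2, 2 / 3, 3 / 5, 4, 4 / 5, 5, 5 / 7, 1 / 2, 1 / 4]

/-- The coefficients of `t` in the polynomials `u_k`. -/
def uβ : Fin 12 → ℚ := ![0, 0, 0, 0, 0, 0, 2, 2 / 5, 4, 4 / 7, -1 / 2, -1 / 4]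

/-- The polynomial `u_k`. -/
noncomputable def exU (K : Type) [Field K] (k : Fin 12) : MvPowerSeries (Fin 3) K :=
  C ((uα k : ℚ) : K) + C ((uβ k : ℚ) : K) * X 2

/-- The equation of the critical variety; the coordinates are `x = X 0`, `y = X 1`, `t = X 2`. -/
noncomputable def exD (K : Type) [Field K] : MvPowerSeries (Fin 3) K :=
  ∏ k, (X 1 - exU K k ^ 2 * X 0 ^ 2)

end Pool.Agent.Helper38.SC
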